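import Pool.Agent.InvSub2.Exo

/-!
# Exotic invariant subspaces (MP_c40997_an): the necessary condition
-/

set_option autoImplicit false

namespace InvSub2

open Polynomial Finset

noncomputable section

/-! ## The dual curve -/

theorem natDegree_pj (l : ℝ[X] →ₗ[ℝ] ℝ) (j : ℕ) : (pj l j).natDegree ≤ j := by
  unfold pj
  refine natDegree_sum_le_of_forall_le _ _ fun m _ => ?_
  refine (natDegree_C_mul_le _ _).trans (natDegree_pow_le.trans ?_)
  rw [natDegree_neg, natDegree_X, mul_one]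
  omega

/-- `l (w_{x, x})` as a polynomial in `x` -/
def Eop (k : ℕ) (g : ℝ[X]) (l : ℝ[X] →ₗ[ℝ] ℝ) : ℝ[X] :=
  C (l g) - ∑ j ∈ range (2 * k), hasseDeriv j g * pj l j

theorem Eop_eval {k : ℕ} {g : ℝ[X]} (hg : 2 * k ≤ g.natDegree) (l : ℝ[X] →ₗ[ℝ] ℝ) (x : ℝ) :
    (Eop k g l).eval x = l (w k g x x) := by
  rw [w_taylor k g hg x, map_sub, map_sum, Eop, eval_sub, eval_C, eval_finsetSum]
  congr 1
  refine sum_congr rfl fun j _ => ?_
  rw [eval_mul, pj_eval, ← smul_eq_C_mul, map_smul, smul_eq_mul]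

theorem pj_add (l l' : ℝ[X] →ₗ[ℝ] ℝ) (j : ℕ) : pj (l + l') j = pj l j + pj l' j := by
  unfold pj
  rw [← sum_add_distrib]
  refine sum_congr rfl fun m _ => ?_
  rw [LinearMap.add_apply, add_mul, C_add, add_mul]

theorem pj_smul (c : ℝ) (l : ℝ[X] →ₗ[ℝ] ℝ) (j : ℕ) : pj (c • l) j = c • pj l j := by
  unfold pj
  rw [smul_sum]
  refine sum_congr rfl fun m _ => ?_
  rw [LinearMap.smul_apply, smul_eq_mul, mul_assoc, C_mul, smul_eq_C_mul, mul_assoc]

theorem Eop_add (k : ℕ) (g : ℝ[X]) (l l' : ℝ[X] →ₗ[ℝ] ℝ) :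
    Eop k g (l + l') = Eop k g l + Eop k g l' := by
  unfold Eop
  simp only [pj_add, LinearMap.add_apply, C_add, mul_add, sum_add_distrib]
  ring

theorem Eop_smul (k : ℕ) (g : ℝ[X]) (c : ℝ) (l : ℝ[X] →ₗ[ℝ] ℝ) :
    Eop k g (c • l) = c • Eop k g l := by
  unfold Eop
  simp only [pj_smul, LinearMap.smul_apply, smul_eq_mul, C_mul, mul_smul_comm]
  rw [smul_sub, smul_sum, smul_eq_C_mul]

/-- a coefficient of the dual curve, as a functional -/
def coefL (k : ℕ) (g : ℝ[X]) (β : ℝ[X] →ₗ[ℝ] ℝ[X] →ₗ[ℝ] ℝ) (m : ℕ) : ℝ[X] →ₗ[ℝ] ℝ where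
  toFun v := (Eop k g (β v)).coeff m
  map_add' v v' := by rw [map_add, Eop_add, coeff_add]
  map_smul' c v := by rw [map_smul, Eop_smul, coeff_smul, RingHom.id_apply]

theorem der_Eop (k : ℕ) (g : ℝ[X]) (l : ℝ[X] →ₗ[ℝ] ℝ) :
    derivative (Eop k g l) = -((2 * k : ℕ) * hasseDeriv (2 * k) g * pj l (2 * k - 1)) := by
  let f : ℕ → ℝ[X] := fun j => (j : ℝ[X]) * hasseDeriv j g * pj l (j - 1)
  have h3 : ∀ j, derivative (hasseDeriv j g * pj l j) = f (j + 1) - f j := by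
    intro j
    rw [derivative_mul, der_hasse]
    simp only [f]
    rcases Nat.eq_zero_or_pos j with h0 | h0
    · subst h0
      have h4 : derivative (pj l 0) = 0 := by
        rw [pj]
        simp
      rw [h4]
      simp
    · obtain ⟨i, rfl⟩ : ∃ i, j = i + 1 := ⟨j - 1, by omega⟩
      rw [pj_der, Nat.add_sub_cancel, Nat.add_sub_cancel]
      ring
  rw [Eop, derivative_sub, derivative_C, derivative_sum, sum_congr rfl fun j _ => h3 j,
    sum_range_sub f]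
  simp only [f, Nat.cast_zero, zero_mul, sub_zero, zero_sub]

theorem GG_hasse (k : ℕ) (g : ℝ[X]) :
    GG k g = C (((2 * k).factorial : ℕ) : ℝ) * hasseDeriv (2 * k) g := by
  have h := congrFun (factorial_smul_hasseDeriv (R := ℝ) (2 * k)) g
  rw [GG, ← h, LinearMap.smul_apply, nsmul_eq_mul]
  congr 1

theorem Eop_mem {k : ℕ} (hk : 1 ≤ k) (g : ℝ[X]) (l : ℝ[X] →ₗ[ℝ] ℝ) :
    Eop k g l ∈ Wd k (GG k g) := by
  refine ⟨C (-((2 * k : ℕ) : ℝ) * (((2 * k).factorial : ℕ) : ℝ)⁻¹) * pj l (2 * k - 1), ?_, ?_⟩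
  · refine mem_degreeLT' ?_
    have h1 := natDegree_pj l (2 * k - 1)
    have h2 := natDegree_C_mul_le (-((2 * k : ℕ) : ℝ) * (((2 * k).factorial : ℕ) : ℝ)⁻¹)
      (pj l (2 * k - 1))
    omega
  · rw [der_Eop, GG_hasse, C_mul, C_neg]
    have h1 : (((2 * k).factorial : ℕ) : ℝ) ≠ 0 := Nat.cast_ne_zero.2 (Nat.factorial_ne_zero _)
    have h2 : (C (((2 * k).factorial : ℕ) : ℝ) : ℝ[X]) * C (((2 * k).factorial : ℕ) : ℝ)⁻¹ = 1 := by
      rw [← C_mul, mul_inv_cancel₀ h1, C_1]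
    have h3 : (C (((2 * k : ℕ) : ℝ)) : ℝ[X]) = ((2 * k : ℕ) : ℝ[X]) := map_natCast C (2 * k)
    rw [h3]
    linear_combination (-((2 * k : ℕ) : ℝ[X]) * hasseDeriv (2 * k) g * pj l (2 * k - 1)) *
      (-1 * h2)

theorem natDegree_Wd {k : ℕ} {g h : ℝ[X]} (hk : 1 ≤ k) (hg : 2 * k ≤ g.natDegree)
    (hh : h ∈ Wd k (GG k g)) : h.natDegree ≤ g.natDegree := by
  have h1 := natDegree_of_mem (by omega) (Wd_le k (GG k g) hh)
  rw [natDegree_GG hk hg] at h1
  omega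

/-! ## The degree of `w_{x, y}(t)` in `x` -/

theorem alt_sum (n k : ℕ) (hk : 1 ≤ k) (hn : k ≤ n) :
    ∑ j ∈ range (n + 1 - k), (-1 : ℝ) ^ j * (n.choose (j + k) : ℝ) = ((n - 1).choose (k - 1) : ℝ) := by
  obtain ⟨m, rfl⟩ : ∃ m, n = m + 1 := ⟨n - 1, by omega⟩
  let f : ℕ → ℝ := fun j => -((-1 : ℝ) ^ j * (m.choose (j + k - 1) : ℝ))
  have h1 : ∀ j ∈ range (m + 1 + 1 - k), (-1 : ℝ) ^ j * ((m + 1).choose (j + k) : ℝ) =
      f (j + 1) - f j := by
    intro j _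
    obtain ⟨i, hi⟩ : ∃ i, j + k = i + 1 := ⟨j + k - 1, by omega⟩
    simp only [f]
    rw [hi, Nat.choose_succ_succ, show j + 1 + k - 1 = i + 1 by omega,
      show i + 1 - 1 = i by omega]
    push_cast
    rw [pow_succ]
    ring
  rw [sum_congr rfl h1, sum_range_sub f]
  simp only [f]
  rw [show m + 1 + 1 - k + k - 1 = m + 1 by omega, Nat.choose_succ_self, show 0 + k - 1 = k - 1 by
    omega]
  simp

theorem natDegree_CX (t : ℝ) : (C t - X : ℝ[X]).natDegree ≤ 1 := by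
  refine (natDegree_sub_le _ _).trans ?_
  simp

theorem coeff_CX (t : ℝ) (j : ℕ) : ((C t - X : ℝ[X]) ^ j).coeff j = (-1) ^ j := by
  have h := coeff_pow_of_natDegree_le (m := j) (natDegree_CX t)
  rw [mul_one] at h
  rw [h]
  simp

theorem natDegree_CXp (t : ℝ) (j : ℕ) : ((C t - X : ℝ[X]) ^ j).natDegree ≤ j := by
  refine natDegree_pow_le.trans ?_
  calc j * (C t - X : ℝ[X]).natDegree ≤ j * 1 := Nat.mul_le_mul_left _ (natDegree_CX t)
    _ = j := mul_one j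

theorem coeff_Qp {k : ℕ} (hk : 1 ≤ k) {p : ℝ[X]} (hp : k ≤ p.natDegree) (t : ℝ) :
    (Qp k p t).coeff (p.natDegree - k) =
      p.leadingCoeff * ((p.natDegree - 1).choose (k - 1) : ℝ) := by
  rw [← alt_sum _ k hk hp, mul_sum, Qp, finsetSum_coeff]
  refine sum_congr rfl fun j hj => ?_
  rw [mem_range] at hj
  have h1 := natDegree_hasseDeriv_le p (j + k)
  have h2 := coeff_mul_add_eq_of_natDegree_le h1 (natDegree_CXp t j)
  rw [show p.natDegree - k = p.natDegree - (j + k) + j by omega, h2, coeff_CX, hasseDeriv_coeff,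
    Nat.sub_add_cancel (by omega), coeff_natDegree]
  ring

/-- the leading coefficient of `w_{x, y}(t)` in `x` -/
def kap (k : ℕ) (g : ℝ[X]) : ℝ :=
  (-1) ^ k * (g.leadingCoeff * ((g.natDegree - k - 1).choose (k - 1) : ℝ))

theorem kap_ne {k : ℕ} {g : ℝ[X]} (hk : 1 ≤ k) (hg : 2 * k ≤ g.natDegree) : kap k g ≠ 0 := by
  unfold kap
  refine mul_ne_zero (pow_ne_zero _ (by norm_num)) (mul_ne_zero ?_ ?_)
  · rw [Ne, leadingCoeff_eq_zero]
    intro h
    rw [h, natDegree_zero] at hg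
    omega
  · exact Nat.cast_ne_zero.2 (Nat.choose_pos (by omega)).ne'

theorem coeff_hw {k : ℕ} {g : ℝ[X]} (hk : 1 ≤ k) (hg : 2 * k ≤ g.natDegree) (y t : ℝ) :
    (hw k g y t).coeff (g.natDegree - k) = kap k g * (t - y) ^ k := by
  have hm := (monic_X_sub_C y).pow k
  have h1 : (g /ₘ (X - C y) ^ k).natDegree = g.natDegree - k := by
    rw [natDegree_divByMonic _ hm, natDegree_pow, natDegree_X_sub_C, mul_one]
  have h0 : g ≠ 0 := by
    intro h
    rw [h, natDegree_zero] at hg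
    omega
  have h2 : (g /ₘ (X - C y) ^ k).leadingCoeff = g.leadingCoeff := by
    refine leadingCoeff_divByMonic_of_monic hm ?_
    rw [degree_pow, degree_X_sub_C, degree_eq_natDegree h0]
    simp only [nsmul_eq_mul, mul_one]
    exact_mod_cast (by omega : k ≤ g.natDegree)
  have h3 := coeff_Qp hk (p := g /ₘ (X - C y) ^ k) (by omega) t
  have h4 := natDegree_Qp k (g /ₘ (X - C y) ^ k) t
  have h5 := coeff_mul_add_eq_of_natDegree_le (natDegree_CXp t k) h4
  rw [h3, coeff_CX, h1, h2] at h5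
  rw [hw, mul_assoc, coeff_C_mul, show g.natDegree - k = k + (g.natDegree - k - k) by omega, h5,
    kap]
  ring

/-! ## The kernel of an invariant operator -/

section Conv

variable {k : ℕ} {g : ℝ[X]} {b : ℕ → ℕ → ℝ[X]}

theorem Bop_symm (hb : ∀ i j, b i j = b j i) (u v : ℝ[X]) : Bop k b u v = Bop k b v u := by
  unfold Bop
  rw [sum_comm]
  refine sum_congr rfl fun i _ => sum_congr rfl fun j _ => ?_
  rw [hb i j]
  ring

/-- evaluation of the operator -/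
def bev (k : ℕ) (b : ℕ → ℕ → ℝ[X]) (f : ℝ[X] →ₗ[ℝ] ℝ) : ℝ[X] →ₗ[ℝ] ℝ[X] →ₗ[ℝ] ℝ :=
  LinearMap.mk₂ ℝ (fun v u => f (Bop k b u v))
    (fun v v' u => by rw [Bop_add_right, map_add])
    (fun c v u => by rw [Bop_smul_right, map_smul])
    (fun v u u' => by rw [Bop_add_left, map_add])
    (fun c v u => by rw [Bop_smul_left, map_smul])

theorem bev_apply (f : ℝ[X] →ₗ[ℝ] ℝ) (u v : ℝ[X]) : bev k b f v u = f (Bop k b u v) := rfl

/-- the coefficient of `g` -/
def gco (g : ℝ[X]) : ℝ[X] →ₗ[ℝ] ℝ := (g.leadingCoeff)⁻¹ • Polynomial.lcoeff ℝ g.natDegree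

theorem gco_apply (g u : ℝ[X]) : gco g u = (g.leadingCoeff)⁻¹ * u.coeff g.natDegree := rfl

theorem eq_w (hk : 1 ≤ k) (hg : 2 * k ≤ g.natDegree) {u : ℝ[X]} (hu : u ∈ Wg k g) (x y : ℝ)
    (hd : (X - C x) ^ k * (X - C y) ^ k ∣ u) : u = C (gco g u) * w k g x y := by
  have h0 : g ≠ 0 := by
    intro h
    rw [h, natDegree_zero] at hg
    omega
  obtain ⟨p, hp, q, hq, rfl⟩ := Submodule.mem_sup.1 hu
  obtain ⟨c, rfl⟩ := Submodule.mem_span_singleton.1 hq
  have h1 : gco g (p + c • g) = c := by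
    rw [gco_apply, coeff_add, coeff_smul, coeff_natDegree, smul_eq_mul,
      coeff_eq_zero_of_natDegree_lt (lt_of_lt_of_le (natDegree_of_mem (by omega) hp) hg), zero_add,
      mul_comm c, inv_mul_cancel_left₀ (leadingCoeff_ne_zero.2 h0)]
  rw [h1]
  have h2 : p + c • g - C c * w k g x y ∈ degreeLT ℝ (2 * k) := by
    have h3 : p + c • g - C c * w k g x y =
        p + c • (g %ₘ ((X - C x) ^ k * (X - C y) ^ k)) := by
      rw [w, smul_eq_C_mul, smul_eq_C_mul]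
      ring
    rw [h3]
    exact Submodule.add_mem _ hp (Submodule.smul_mem _ c (rem_mem k g x y))
  have h3 : (X - C x) ^ k * (X - C y) ^ k ∣ p + c • g - C c * w k g x y := by
    refine dvd_sub hd (Dvd.dvd.mul_left ?_ _)
    rw [w_eq]
    exact Dvd.intro _ rfl
  have h4 : p + c • g - C c * w k g x y = 0 := by
    by_contra hne
    have h5 := degree_le_of_dvd h3 hne
    rw [degree_m] at h5
    rw [mem_degreeLT] at h2
    exact absurd (lt_of_le_of_lt h5 h2) (lt_irrefl _)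
  rw [sub_eq_zero] at h4
  exact h4

theorem Bop_w (hk : 1 ≤ k) (hg : 2 * k ≤ g.natDegree)
    (hinv : ∀ u ∈ Wg k g, ∀ v ∈ Wg k g, Bop k b u v ∈ Wg k g) (x y : ℝ) :
    Bop k b (w k g x x) (w k g y y) =
      C (gco g (Bop k b (w k g x x) (w k g y y))) * w k g x y := by
  refine eq_w hk hg (hinv _ (w_mem k g x x) _ (w_mem k g y y)) x y ?_
  have h2 : ∀ z i, i ≤ k → (X - C z) ^ k ∣ derivative^[i] (w k g z z) := by
    intro z i hi
    have h3 : (X - C z) ^ (2 * k - i) ∣ derivative^[i] (w k g z z) := by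
      refine pow_sub_dvd_iterate_derivative_of_pow_dvd i ?_
      rw [w_eq, two_mul, pow_add]
      exact Dvd.intro _ rfl
    exact (pow_dvd_pow _ (by omega)).trans h3
  unfold Bop
  refine dvd_sum fun i hi => dvd_sum fun j hj => ?_
  rw [mem_range] at hi hj
  rw [mul_assoc]
  exact Dvd.dvd.mul_left (mul_dvd_mul (h2 x i (by omega)) (h2 y j (by omega))) _

end Conv

end

end InvSub2
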