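import Mathlib

/-!
# Exotic invariant subspaces (MP_c40997_an): definitions
-/

set_option autoImplicit false

namespace InvSub2

open Polynomial Finset

noncomputable section

/-- the space of all real polynomials `u` whose `2k`-th derivative is a constant multiple of `G` -/
def V (k : ℕ) (G : ℝ[X]) : Submodule ℝ ℝ[X] where
  carrier := {u | ∃ c : ℝ, derivative^[2 * k] u = C c * G}
  add_mem' := by
    rintro u v ⟨c, hc⟩ ⟨d, hd⟩
    exact ⟨c + d, by
      rw [show derivative^[2 * k] (u + v) = derivative^[2 * k] u + derivative^[2 * k] v from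
        iterate_map_add _ _ _ _, hc, hd, C_add, add_mul]⟩
  zero_mem' := ⟨0, by rw [iterate_derivative_zero, C_0, zero_mul]⟩
  smul_mem' := by
    rintro a u ⟨c, hc⟩
    exact ⟨a * c, by rw [iterate_derivative_smul, hc, smul_eq_C_mul, C_mul, mul_assoc]⟩

/-- some nonlinear smooth operator `F[u] = F(x, u, u', ..., u^(k))` on `I` maps `V k G` into
itself -/
def Adm (k : ℕ) (G : ℝ[X]) (I : Set ℝ) : Prop :=
  ∃ F : ℝ → (Fin (k + 1) → ℝ) → ℝ,
    ContDiffOn ℝ (⊤ : ℕ∞) (fun p : ℝ × (Fin (k + 1) → ℝ) => F p.1 p.2) (I ×ˢ Set.univ) ∧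
    (∀ u ∈ V k G, ∃ v ∈ V k G, ∀ x ∈ I,
      F x (fun i => (derivative^[(i : ℕ)] u).eval x) = v.eval x) ∧
    ¬ ∃ (a : Fin (k + 1) → ℝ → ℝ) (h : ℝ → ℝ), ∀ x ∈ I, ∀ v : Fin (k + 1) → ℝ,
      F x v = ∑ i, a i x * v i + h x

/-- on some infinite set of reals every element of `V k G` is `ψ · (v ∘ φ)` for an element `v`
of `V k G'`, with one pair of functions `φ`, `ψ` -/
def Eqv (k : ℕ) (G G' : ℝ[X]) : Prop :=
  ∃ (I : Set ℝ) (φ ψ : ℝ → ℝ), I.Infinite ∧
    ∀ u ∈ V k G, ∃ v ∈ V k G', ∀ x ∈ I, u.eval x = ψ x * v.eval (φ x)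

end

end InvSub2
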