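import Pool.Agent.InvSub2.Ops

/-!
# Exotic invariant subspaces (MP_c40997_an): equivalence of the spaces
-/

set_option autoImplicit false

namespace InvSub2

open Polynomial Finset

noncomputable section

theorem natDegree_Wg {k : ℕ} {g u : ℝ[X]} (hk : 1 ≤ k) (hg : 2 * k ≤ g.natDegree)
    (hu : u ∈ Wg k g) (h : 2 * k ≤ u.natDegree) : u.natDegree = g.natDegree := by
  obtain ⟨p, hp, q, hq, rfl⟩ := Submodule.mem_sup.1 hu
  obtain ⟨c, rfl⟩ := Submodule.mem_span_singleton.1 hq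
  have hp' := natDegree_of_mem (by omega) hp
  by_cases hc : c = 0
  · rw [hc, zero_smul, add_zero] at h
    omega
  · have h1 : (c • g).natDegree = g.natDegree := natDegree_smul _ hc
    rw [natDegree_add_eq_right_of_natDegree_lt (by omega), h1]

/-- the homogenisation -/
def hom (g A B : ℝ[X]) : ℝ[X] :=
  ∑ n ∈ range (g.natDegree + 1), C (g.coeff n) * B ^ n * A ^ (g.natDegree - n)

theorem hom_eval (g A B : ℝ[X]) {s x : ℝ} (h : B.eval s = x * A.eval s) :
    (hom g A B).eval s = g.eval x * A.eval s ^ g.natDegree := by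
  rw [hom, eval_finsetSum, eval_eq_sum_range, sum_mul]
  refine sum_congr rfl fun n hn => ?_
  rw [mem_range] at hn
  rw [eval_mul, eval_mul, eval_C, eval_pow, eval_pow, h, mul_pow]
  have h1 : A.eval s ^ g.natDegree = A.eval s ^ n * A.eval s ^ (g.natDegree - n) := by
    rw [← pow_add]
    congr 1
    omega
  rw [h1]
  ring

theorem hom_coprime {g A B : ℝ[X]} (hg : g ≠ 0) (h : IsCoprime A B) : IsCoprime A (hom g A B) := by
  rw [hom, sum_range_succ, Nat.sub_self, pow_zero, mul_one]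
  have h1 : A ∣ ∑ n ∈ range g.natDegree, C (g.coeff n) * B ^ n * A ^ (g.natDegree - n) := by
    refine dvd_sum fun n hn => ?_
    rw [mem_range] at hn
    exact Dvd.dvd.mul_left (dvd_pow_self _ (by omega)) _
  obtain ⟨c, hc⟩ := h1
  rw [hc, add_comm]
  refine IsCoprime.add_mul_left_right ?_ c
  refine IsCoprime.mul_right ?_ (h.pow_right)
  have h2 : g.coeff g.natDegree ≠ 0 := by
    rw [coeff_natDegree]
    exact leadingCoeff_ne_zero.2 hg
  refine ⟨0, C (g.coeff g.natDegree)⁻¹, ?_⟩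
  rw [zero_mul, zero_add, ← C_mul, inv_mul_cancel₀ h2, C_1]

/-- the two elements of largest degree -/
theorem two_elements {k : ℕ} {g h A B : ℝ[X]} (hk : 2 ≤ k) (hg : 2 * k ≤ g.natDegree)
    (h0 : h ≠ 0) (hA : A ≠ 0) (hlin : ∀ c : ℝ, B ≠ C c * A)
    (hc0 : h * A ^ (2 * k - 1) ∈ Wg k g) (hc1 : h * A ^ (2 * k - 2) * B ∈ Wg k g)
    (hc2 : h * B ^ (2 * k - 2) * A ∈ Wg k g) (hc3 : h * B ^ (2 * k - 1) ∈ Wg k g) :
    A.natDegree ≤ 1 ∧ B.natDegree ≤ 1 ∧ h.natDegree ≤ 1 := by
  have hB : B ≠ 0 := by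
    have := hlin 0
    rwa [C_0, zero_mul] at this
  -- the key estimate
  have key : ∀ Q P : ℝ[X], Q ≠ 0 → P ≠ 0 → P.natDegree < Q.natDegree →
      h * Q ^ (2 * k - 1) ∈ Wg k g → h * Q ^ (2 * k - 2) * P ∈ Wg k g →
      Q.natDegree ≤ 1 ∧ h.natDegree ≤ 1 := by
    intro Q P hQ hP hPQ h1 h2
    have e1 : (h * Q ^ (2 * k - 1)).natDegree = h.natDegree + (2 * k - 1) * Q.natDegree := by
      rw [natDegree_mul h0 (pow_ne_zero _ hQ), natDegree_pow]
    have e2 : (h * Q ^ (2 * k - 2) * P).natDegree =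
        h.natDegree + (2 * k - 2) * Q.natDegree + P.natDegree := by
      rw [natDegree_mul (mul_ne_zero h0 (pow_ne_zero _ hQ)) hP,
        natDegree_mul h0 (pow_ne_zero _ hQ), natDegree_pow]
    have e3 : (2 * k - 1) * Q.natDegree = (2 * k - 2) * Q.natDegree + Q.natDegree := by
      rw [show 2 * k - 1 = (2 * k - 2) + 1 by omega, add_mul, one_mul]
    have e4 : (h * Q ^ (2 * k - 2) * P).natDegree < 2 * k := by
      by_contra hcon
      push Not at hcon
      have e5 := natDegree_Wg (by omega) hg h2 hcon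
      have e6 := natDegree_Wg (by omega) hg h1 (by rw [e1, e3]; omega)
      rw [e1, e3] at e6
      omega
    rw [e2] at e4
    have e5 : Q.natDegree ≤ 1 := by
      by_contra hcon
      push Not at hcon
      have : (2 * k - 2) * 2 ≤ (2 * k - 2) * Q.natDegree := Nat.mul_le_mul_left _ hcon
      omega
    refine ⟨e5, ?_⟩
    have e6 : Q.natDegree = 1 := by omega
    rw [e6, mul_one] at e4
    omega
  rcases lt_trichotomy A.natDegree B.natDegree with hlt | heq | hgt
  · obtain ⟨h1, h2⟩ := key B A hB hA hlt hc3 hc2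
    exact ⟨by omega, h1, h2⟩
  · set μ := B.leadingCoeff / A.leadingCoeff with hμ
    have hlA := leadingCoeff_ne_zero.2 hA
    have hP : B - C μ * A ≠ 0 := fun h => hlin μ (sub_eq_zero.1 h)
    have hA0 : A.natDegree ≠ 0 := by
      intro h1
      have h2 : B.natDegree = 0 := by omega
      apply hlin μ
      rw [eq_C_of_natDegree_eq_zero h1, eq_C_of_natDegree_eq_zero h2, ← C_mul, hμ, leadingCoeff,
        leadingCoeff, h1, h2]
      rw [leadingCoeff, h1] at hlA
      rw [div_mul_cancel₀ _ hlA]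
    have hPd : (B - C μ * A).natDegree < A.natDegree := by
      have hμ0 : μ ≠ 0 := div_ne_zero (leadingCoeff_ne_zero.2 hB) hlA
      have h1 : (B - C μ * A).degree < B.degree := by
        refine degree_sub_lt_left ?_ hB ?_
        · rw [degree_C_mul hμ0, degree_eq_natDegree hA, degree_eq_natDegree hB, heq]
        · rw [leadingCoeff_mul, leadingCoeff_C, hμ, div_mul_cancel₀ _ hlA]
      have h2 := natDegree_lt_natDegree hP h1
      omega
    have hmem : h * A ^ (2 * k - 2) * (B - C μ * A) ∈ Wg k g := by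
      have h1 : h * A ^ (2 * k - 2) * (B - C μ * A) =
          h * A ^ (2 * k - 2) * B - μ • (h * A ^ (2 * k - 1)) := by
        rw [smul_eq_C_mul, show 2 * k - 1 = (2 * k - 2) + 1 by omega, pow_succ]
        ring
      rw [h1]
      exact (Wg k g).sub_mem hc1 ((Wg k g).smul_mem _ hc0)
    obtain ⟨h1, h2⟩ := key A _ hA hP hPd hc0 hmem
    exact ⟨h1, by omega, h2⟩
  · obtain ⟨h1, h2⟩ := key A B hA hB hgt hc0 hc1
    exact ⟨h1, by omega, h2⟩

/-- **equivalent spaces come from affine substitutions** -/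
theorem equiv_affine {k : ℕ} (hk : 2 ≤ k) {g g' : ℝ[X]} (hg : 2 * k + 1 ≤ g.natDegree)
    (hg' : 2 * k ≤ g'.natDegree) {I : Set ℝ} (hI : I.Infinite) {φ ψ : ℝ → ℝ}
    (h : ∀ u ∈ Wg k g, ∃ v ∈ Wg k g', ∀ x ∈ I, u.eval x = ψ x * v.eval (φ x)) :
    ∃ α β l : ℝ, α ≠ 0 ∧ l ≠ 0 ∧ g.comp (C α * X + C β) - C l * g' ∈ degreeLT ℝ (2 * k) := by
  have hX : ∀ j, j < 2 * k → (X ^ j : ℝ[X]) ∈ Wg k g := fun j hj =>
    Submodule.mem_sup_left (mem_degreeLT' (by rw [natDegree_X_pow]; exact hj))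
  obtain ⟨c0, hc0, e0⟩ := h _ (hX 0 (by omega))
  obtain ⟨c1, hc1, e1⟩ := h _ (hX 1 (by omega))
  obtain ⟨c2, hc2, e2⟩ := h _ (hX (2 * k - 2) (by omega))
  obtain ⟨c3, hc3, e3⟩ := h _ (hX (2 * k - 1) (by omega))
  obtain ⟨cg, hcg, eg⟩ := h _ (g_mem k g)
  simp only [eval_pow, eval_X, pow_zero, pow_one, eval_one] at e0 e1 e2 e3
  have n0 : ∀ x ∈ I, c0.eval (φ x) ≠ 0 := by
    intro x hx h0
    have := e0 x hx
    rw [h0, mul_zero] at this
    exact one_ne_zero this
  have nψ : ∀ x ∈ I, ψ x * c0.eval (φ x) = 1 := fun x hx => (e0 x hx).symm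
  have r1 : ∀ x ∈ I, c1.eval (φ x) = x * c0.eval (φ x) := by
    intro x hx
    have a := e1 x hx
    have b := nψ x hx
    linear_combination (-(c0.eval (φ x))) * a - c1.eval (φ x) * b
  have r2 : ∀ x ∈ I, c2.eval (φ x) = x ^ (2 * k - 2) * c0.eval (φ x) := by
    intro x hx
    have a := e2 x hx
    have b := nψ x hx
    linear_combination (-(c0.eval (φ x))) * a - c2.eval (φ x) * b
  have r3 : ∀ x ∈ I, c3.eval (φ x) = x ^ (2 * k - 1) * c0.eval (φ x) := by
    intro x hx
    have a := e3 x hx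
    have b := nψ x hx
    linear_combination (-(c0.eval (φ x))) * a - c3.eval (φ x) * b
  have rg : ∀ x ∈ I, cg.eval (φ x) = g.eval x * c0.eval (φ x) := by
    intro x hx
    have a := eg x hx
    have b := nψ x hx
    linear_combination (-(c0.eval (φ x))) * a - cg.eval (φ x) * b
  have hinj : Set.InjOn φ I := by
    intro x hx y hy hxy
    have a := r1 x hx
    have b := r1 y hy
    rw [hxy] at a
    exact mul_right_cancel₀ (n0 y hy) (a.symm.trans b)
  have hinf : (φ '' I).Infinite := hI.image hinj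
  have ext : ∀ p q : ℝ[X], (∀ x ∈ I, p.eval (φ x) = q.eval (φ x)) → p = q := by
    intro p q hpq
    refine eq_of_infinite_eval_eq p q (hinf.mono ?_)
    rintro _ ⟨x, hx, rfl⟩
    exact hpq x hx
  have c0ne : c0 ≠ 0 := by
    intro h0
    obtain ⟨x, hx⟩ := hI.nonempty
    apply n0 x hx
    rw [h0, eval_zero]
  -- the common factor
  obtain ⟨d, A, B, hdA, hdB, hcop⟩ : ∃ d A B : ℝ[X], c0 = d * A ∧ c1 = d * B ∧
      IsCoprime A B := by
    have h1 := EuclideanDomain.gcd_dvd_left c0 c1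
    have h2 := EuclideanDomain.gcd_dvd_right c0 c1
    have h3 := EuclideanDomain.gcd_eq_gcd_ab c0 c1
    set d := EuclideanDomain.gcd c0 c1 with hd
    obtain ⟨A, hA⟩ := h1
    obtain ⟨B, hB⟩ := h2
    refine ⟨d, A, B, hA, hB, EuclideanDomain.gcdA c0 c1, EuclideanDomain.gcdB c0 c1, ?_⟩
    have hd0 : d ≠ 0 := by
      intro h0
      rw [h0, zero_mul] at hA
      exact c0ne hA
    refine mul_left_cancel₀ hd0 ?_
    have h4 : c0 * EuclideanDomain.gcdA c0 c1 + c1 * EuclideanDomain.gcdB c0 c1 = d := h3.symm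
    calc d * (EuclideanDomain.gcdA c0 c1 * A + EuclideanDomain.gcdB c0 c1 * B)
        = (d * A) * EuclideanDomain.gcdA c0 c1 + (d * B) * EuclideanDomain.gcdB c0 c1 := by ring
      _ = d * 1 := by rw [← hA, ← hB, h4, mul_one]
  have hd0 : d ≠ 0 := by
    rintro rfl
    rw [zero_mul] at hdA
    exact c0ne hdA
  have hA0 : A ≠ 0 := by
    rintro rfl
    rw [mul_zero] at hdA
    exact c0ne hdA
  -- the power structure
  have p3 : c3 * c0 ^ (2 * k - 2) = c1 ^ (2 * k - 1) := by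
    refine ext _ _ fun x hx => ?_
    rw [eval_mul, eval_pow, eval_pow, r3 x hx, r1 x hx, mul_pow, mul_assoc, ← pow_succ',
      show 2 * k - 2 + 1 = 2 * k - 1 by omega]
  have p2 : c2 * c0 ^ (2 * k - 3) = c1 ^ (2 * k - 2) := by
    refine ext _ _ fun x hx => ?_
    rw [eval_mul, eval_pow, eval_pow, r2 x hx, r1 x hx, mul_pow, mul_assoc, ← pow_succ',
      show 2 * k - 3 + 1 = 2 * k - 2 by omega]
  have q3 : c3 * A ^ (2 * k - 2) = d * B ^ (2 * k - 1) := by
    refine mul_left_cancel₀ (pow_ne_zero (2 * k - 2) hd0) ?_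
    rw [hdA, hdB] at p3
    calc d ^ (2 * k - 2) * (c3 * A ^ (2 * k - 2)) = c3 * (d * A) ^ (2 * k - 2) := by
          rw [mul_pow]; ring
      _ = (d * B) ^ (2 * k - 1) := p3
      _ = d ^ (2 * k - 2) * (d * B ^ (2 * k - 1)) := by
          rw [mul_pow, show 2 * k - 1 = (2 * k - 2) + 1 by omega, pow_succ d]
          ring
  obtain ⟨h', hh'⟩ : A ^ (2 * k - 2) ∣ d := by
    have h1 : IsCoprime (A ^ (2 * k - 2)) (B ^ (2 * k - 1)) := hcop.pow
    exact h1.dvd_of_dvd_mul_right ⟨c3, by rw [← q3]; ring⟩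
  have hh0 : h' ≠ 0 := by
    rintro rfl
    rw [mul_zero] at hh'
    exact hd0 hh'
  have s0 : c0 = h' * A ^ (2 * k - 1) := by
    rw [hdA, hh', show 2 * k - 1 = (2 * k - 2) + 1 by omega, pow_succ]
    ring
  have s1 : c1 = h' * A ^ (2 * k - 2) * B := by
    rw [hdB, hh']
    ring
  have s3 : c3 = h' * B ^ (2 * k - 1) := by
    refine mul_right_cancel₀ (pow_ne_zero (2 * k - 2) hA0) ?_
    rw [q3, hh']
    ring
  have s2 : c2 = h' * B ^ (2 * k - 2) * A := by
    refine mul_right_cancel₀ (pow_ne_zero (2 * k - 3) c0ne) ?_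
    rw [p2, s1, s0, mul_pow, mul_pow, mul_pow]
    have h1 : (A ^ (2 * k - 2)) ^ (2 * k - 2) = A * (A ^ (2 * k - 1)) ^ (2 * k - 3) := by
      rw [← pow_mul, ← pow_mul, ← pow_succ']
      congr 1
      obtain ⟨m, rfl⟩ : ∃ m, k = m + 2 := ⟨k - 2, by omega⟩
      rw [show 2 * (m + 2) - 2 = 2 * m + 2 by omega, show 2 * (m + 2) - 1 = 2 * m + 3 by omega,
        show 2 * (m + 2) - 3 = 2 * m + 1 by omega]
      ring
    rw [h1, show 2 * k - 2 = (2 * k - 3) + 1 by omega, pow_succ h']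
    ring
  have hlin : ∀ c : ℝ, B ≠ C c * A := by
    intro c hc
    have h1 : c1 = C c * c0 := by
      rw [s1, s0, hc, show 2 * k - 1 = (2 * k - 2) + 1 by omega, pow_succ]
      ring
    obtain ⟨x, hx, hxc⟩ := hI.exists_notMem_finset {c}
    have h2 := r1 x hx
    rw [h1, eval_mul, eval_C] at h2
    apply hxc
    rw [mem_singleton]
    exact (mul_right_cancel₀ (n0 x hx) h2).symm
  obtain ⟨dA, dB, dh⟩ := two_elements hk hg' hh0 hA0 hlin (s0 ▸ hc0) (s1 ▸ hc1) (s2 ▸ hc2)
    (s3 ▸ hc3)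
  -- the last element
  have hgne : g ≠ 0 := by
    intro h0
    rw [h0, natDegree_zero] at hg
    omega
  have t1 : cg * A ^ (g.natDegree - (2 * k - 1)) = h' * hom g A B := by
    refine mul_right_cancel₀ (pow_ne_zero (2 * k - 1) hA0) ?_
    rw [mul_assoc, ← pow_add, show g.natDegree - (2 * k - 1) + (2 * k - 1) = g.natDegree by omega]
    refine ext _ _ fun x hx => ?_
    have h1 : B.eval (φ x) = x * A.eval (φ x) := by
      have h2 := r1 x hx
      have h3 : c0.eval (φ x) ≠ 0 := n0 x hx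
      rw [s0, eval_mul] at h3
      rw [s1, s0] at h2
      simp only [eval_mul, eval_pow] at h2 h3
      have h4 : eval (φ x) h' ≠ 0 := left_ne_zero_of_mul h3
      have h5 : eval (φ x) A ^ (2 * k - 2) ≠ 0 := by
        have := right_ne_zero_of_mul h3
        rw [show 2 * k - 1 = (2 * k - 2) + 1 by omega, pow_succ] at this
        exact left_ne_zero_of_mul this
      refine mul_left_cancel₀ (mul_ne_zero h4 h5) ?_
      rw [h2, show 2 * k - 1 = (2 * k - 2) + 1 by omega, pow_succ]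
      ring
    rw [eval_mul, eval_pow, rg x hx, s0, eval_mul, eval_mul, eval_mul, hom_eval g A B h1, eval_pow]
    ring
  have hAd : A ^ (g.natDegree - (2 * k - 1)) ∣ h' := by
    have h1 : IsCoprime (A ^ (g.natDegree - (2 * k - 1))) (hom g A B) :=
      (hom_coprime hgne hcop).pow_left
    exact h1.dvd_of_dvd_mul_right ⟨cg, by rw [← t1]; ring⟩
  have hA1 : A.natDegree = 0 := by
    have h1 := natDegree_le_of_dvd hAd hh0
    rw [natDegree_pow] at h1
    by_contra hcon
    have h2 : 2 * 1 ≤ (g.natDegree - (2 * k - 1)) * A.natDegree :=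
      Nat.mul_le_mul (by omega) (by omega)
    omega
  obtain ⟨a0, ha0⟩ : ∃ a0, A = C a0 := ⟨_, eq_C_of_natDegree_eq_zero hA1⟩
  have ha0' : a0 ≠ 0 := by
    rintro rfl
    rw [C_0] at ha0
    exact hA0 ha0
  obtain ⟨b1, b0, hb⟩ := exists_eq_X_add_C_of_natDegree_le_one dB
  have hb1 : b1 ≠ 0 := by
    rintro rfl
    apply hlin (b0 / a0)
    rw [hb, ha0, ← C_mul, div_mul_cancel₀ _ ha0', C_0, zero_mul, zero_add]
  set α := b1 / a0 with hα
  set β := b0 / a0 with hβ
  have hα0 : α ≠ 0 := div_ne_zero hb1 ha0'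
  have hlinear : (C α * X + C β : ℝ[X]).natDegree = 1 := natDegree_linear hα0
  have hcg' : cg = g.comp (C α * X + C β) * c0 := by
    refine ext _ _ fun x hx => ?_
    rw [rg x hx, eval_mul, eval_comp]
    congr 2
    have h2 := r1 x hx
    have h3 : c0.eval (φ x) ≠ 0 := n0 x hx
    rw [s1, ha0, hb] at h2
    rw [s0, ha0] at h2 h3
    simp only [eval_mul, eval_pow, eval_C, eval_add, eval_X] at h2 h3 ⊢
    have h4 : eval (φ x) h' ≠ 0 := left_ne_zero_of_mul h3
    have h5 : a0 ^ (2 * k - 2) ≠ 0 := pow_ne_zero _ ha0'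
    rw [show 2 * k - 1 = (2 * k - 2) + 1 by omega, pow_succ] at h2
    have h6 : b1 * φ x + b0 = x * a0 := by
      refine mul_left_cancel₀ (mul_ne_zero h4 h5) ?_
      rw [h2]
      ring
    rw [hα, hβ, div_mul_eq_mul_div, ← add_div, h6, mul_div_cancel_right₀ _ ha0']
  have hcomp : (g.comp (C α * X + C β)).natDegree = g.natDegree := by
    rw [natDegree_comp, hlinear, mul_one]
  have hcompne : g.comp (C α * X + C β) ≠ 0 := by
    intro h0
    rw [h0, natDegree_zero] at hcomp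
    omega
  have hcgd : cg.natDegree = g.natDegree + c0.natDegree := by
    rw [hcg', natDegree_mul hcompne c0ne, hcomp]
  have hN := natDegree_Wg (by omega) hg' hcg (by omega)
  have hc0d : c0.natDegree = h'.natDegree := by
    rw [s0, ha0, ← C_pow, natDegree_mul_C (pow_ne_zero _ ha0')]
  have hBd : B.natDegree = 1 := by
    rw [hb]
    exact natDegree_linear hb1
  have hB0 : B ≠ 0 := by
    intro h0
    rw [h0, natDegree_zero] at hBd
    omega
  have hh'd : h'.natDegree = 0 := by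
    by_contra hcon
    have h1 : h'.natDegree = 1 := by omega
    have h2 : c3.natDegree = 2 * k := by
      rw [s3, natDegree_mul hh0 (pow_ne_zero _ hB0), natDegree_pow, hBd, h1]
      omega
    have h3 := natDegree_Wg (by omega) hg' hc3 (by omega)
    omega
  obtain ⟨c, hc⟩ : ∃ c, c0 = C c := ⟨_, eq_C_of_natDegree_eq_zero (by rw [hc0d, hh'd])⟩
  have hc' : c ≠ 0 := by
    rintro rfl
    rw [C_0] at hc
    exact c0ne hc
  obtain ⟨p, hp, q, hq, hpq⟩ := Submodule.mem_sup.1 hcg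
  obtain ⟨l, rfl⟩ := Submodule.mem_span_singleton.1 hq
  refine ⟨α, β, c⁻¹ * l, hα0, mul_ne_zero (inv_ne_zero hc') ?_, ?_⟩
  · rintro rfl
    rw [zero_smul, add_zero] at hpq
    have h1 := natDegree_of_mem (by omega) hp
    rw [hpq] at h1
    omega
  · have h1 : g.comp (C α * X + C β) - C (c⁻¹ * l) * g' = c⁻¹ • p := by
      have h2 : g.comp (C α * X + C β) = C c⁻¹ * cg := by
        rw [hcg', hc, mul_left_comm, ← C_mul, inv_mul_cancel₀ hc', C_1, mul_one]
      rw [h2, ← hpq, smul_eq_C_mul, smul_eq_C_mul, C_mul]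
      ring
    rw [h1]
    exact Submodule.smul_mem _ _ hp

end

end InvSub2
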