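import Pool.Agent.InvSub2.Span

/-!
# Exotic invariant subspaces (MP_c40997_an): the operator
-/

set_option autoImplicit false

namespace InvSub2

open Polynomial Finset

noncomputable section

/-- the bilinear operator with coefficients `b` -/
def Bop (k : ℕ) (b : ℕ → ℕ → ℝ[X]) (u v : ℝ[X]) : ℝ[X] :=
  ∑ i ∈ range (k + 1), ∑ j ∈ range (k + 1), b i j * derivative^[i] u * derivative^[j] v

theorem iter_add (n : ℕ) (p q : ℝ[X]) :
    derivative^[n] (p + q) = derivative^[n] p + derivative^[n] q := iterate_map_add _ _ _ _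

theorem Bop_add_left (k : ℕ) (b : ℕ → ℕ → ℝ[X]) (u u' v : ℝ[X]) :
    Bop k b (u + u') v = Bop k b u v + Bop k b u' v := by
  unfold Bop
  rw [← sum_add_distrib]
  refine sum_congr rfl fun i _ => ?_
  rw [← sum_add_distrib]
  refine sum_congr rfl fun j _ => ?_
  rw [iter_add]
  ring

theorem Bop_add_right (k : ℕ) (b : ℕ → ℕ → ℝ[X]) (u v v' : ℝ[X]) :
    Bop k b u (v + v') = Bop k b u v + Bop k b u v' := by
  unfold Bop
  rw [← sum_add_distrib]
  refine sum_congr rfl fun i _ => ?_
  rw [← sum_add_distrib]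
  refine sum_congr rfl fun j _ => ?_
  rw [iter_add]
  ring

theorem Bop_smul_left (k : ℕ) (b : ℕ → ℕ → ℝ[X]) (c : ℝ) (u v : ℝ[X]) :
    Bop k b (c • u) v = c • Bop k b u v := by
  unfold Bop
  rw [smul_sum]
  refine sum_congr rfl fun i _ => ?_
  rw [smul_sum]
  refine sum_congr rfl fun j _ => ?_
  rw [iterate_derivative_smul, mul_smul_comm, smul_mul_assoc]

theorem Bop_smul_right (k : ℕ) (b : ℕ → ℕ → ℝ[X]) (c : ℝ) (u v : ℝ[X]) :
    Bop k b u (c • v) = c • Bop k b u v := by
  unfold Bop
  rw [smul_sum]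
  refine sum_congr rfl fun i _ => ?_
  rw [smul_sum]
  refine sum_congr rfl fun j _ => ?_
  rw [iterate_derivative_smul, mul_smul_comm]

theorem Bop_zero_left (k : ℕ) (b : ℕ → ℕ → ℝ[X]) (v : ℝ[X]) : Bop k b 0 v = 0 := by
  have h := Bop_smul_left k b 0 0 v
  rwa [zero_smul, zero_smul] at h

theorem Bop_zero_right (k : ℕ) (b : ℕ → ℕ → ℝ[X]) (u : ℝ[X]) : Bop k b u 0 = 0 := by
  have h := Bop_smul_right k b 0 u 0
  rwa [zero_smul, zero_smul] at h

/-- invariance from generators -/
theorem Bop_mem {k : ℕ} {b : ℕ → ℕ → ℝ[X]} {W : Submodule ℝ ℝ[X]} {s : ℝ → ℝ[X]}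
    (hs : W ≤ Submodule.span ℝ (Set.range s)) (hb : ∀ x y, Bop k b (s x) (s y) ∈ W) :
    ∀ u ∈ W, ∀ v ∈ W, Bop k b u v ∈ W := by
  have h1 : ∀ x, ∀ v ∈ W, Bop k b (s x) v ∈ W := by
    intro x v hv
    refine Submodule.span_induction ?_ ?_ ?_ ?_ (hs hv)
    · rintro _ ⟨y, rfl⟩
      exact hb x y
    · rw [Bop_zero_right]
      exact W.zero_mem
    · intro a c _ _ ha hc
      rw [Bop_add_right]
      exact W.add_mem ha hc
    · intro c a _ ha
      rw [Bop_smul_right]
      exact W.smul_mem c ha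
  intro u hu v hv
  refine Submodule.span_induction ?_ ?_ ?_ ?_ (hs hu)
  · rintro _ ⟨y, rfl⟩
    exact h1 y v hv
  · rw [Bop_zero_left]
    exact W.zero_mem
  · intro a c _ _ ha hc
    rw [Bop_add_left]
    exact W.add_mem ha hc
  · intro c a _ ha
    rw [Bop_smul_left]
    exact W.smul_mem c ha

theorem Wd_le (k : ℕ) (G : ℝ[X]) : Wd k G ≤ degreeLT ℝ (G.natDegree + 2 * k + 1) := by
  rintro h ⟨r, hr, e⟩
  refine mem_degreeLT' ?_
  by_contra hcon
  have h1 : h.natDegree ≤ (derivative h).natDegree + 1 := by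
    by_cases h0 : h.natDegree = 0
    · omega
    · have h2 : (derivative h).natDegree = h.natDegree - 1 := natDegree_derivative h
      omega
  by_cases hk : k = 0
  · subst hk
    have hr0 : r = 0 := by
      rw [mul_zero, mem_degreeLT] at hr
      exact degree_eq_bot.1 (Nat.WithBot.lt_zero_iff.1 (by exact_mod_cast hr))
    rw [e, hr0, mul_zero, natDegree_zero] at h1
    have h3 : derivative h = 0 := by rw [e, hr0, mul_zero]
    have h4 : h.natDegree = 0 := derivative_eq_zero.1 h3
    omega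
  · have h3 := natDegree_of_mem (by omega) hr
    have h4 : (G * r).natDegree ≤ G.natDegree + r.natDegree := natDegree_mul_le
    rw [e] at h1
    omega

instance Wd_fd (k : ℕ) (G : ℝ[X]) : FiniteDimensional ℝ (Wd k G) := by
  have : FiniteDimensional ℝ (degreeLT ℝ (G.natDegree + 2 * k + 1)) :=
    (degreeLTEquiv ℝ _).symm.finiteDimensional
  exact Submodule.finiteDimensional_of_le (Wd_le k G)

theorem Lam_sum {ι : Type} (s : Finset ι) (k : ℕ) (t : ℝ) (e : ℝ[X]) (c : ι → ℝ)
    (r : ι → ℝ[X]) : Lam k t e (∑ a ∈ s, C (c a) * r a) = ∑ a ∈ s, c a * Lam k t e (r a) := by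
  unfold Lam
  simp only [mul_sum]
  rw [sum_comm]
  refine sum_congr rfl fun i _ => ?_
  rw [iterate_derivative_sum, eval_finsetSum, mul_sum]
  refine sum_congr rfl fun a _ => ?_
  rw [iterate_derivative_C_mul, eval_mul, eval_C]
  ring

theorem sum4 {ι : Type} [Fintype ι] (n : ℕ) (f : ℕ → ℕ → ι → ι → ℝ) :
    ∑ i ∈ range n, ∑ j ∈ range n, ∑ p, ∑ q, f i j p q =
      ∑ p, ∑ q, ∑ i ∈ range n, ∑ j ∈ range n, f i j p q := by
  calc ∑ i ∈ range n, ∑ j ∈ range n, ∑ p, ∑ q, f i j p q
      = ∑ i ∈ range n, ∑ p, ∑ j ∈ range n, ∑ q, f i j p q :=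
        sum_congr rfl fun i _ => sum_comm
    _ = ∑ p, ∑ i ∈ range n, ∑ j ∈ range n, ∑ q, f i j p q := sum_comm
    _ = ∑ p, ∑ i ∈ range n, ∑ q, ∑ j ∈ range n, f i j p q :=
        sum_congr rfl fun p _ => sum_congr rfl fun i _ => sum_comm
    _ = ∑ p, ∑ q, ∑ i ∈ range n, ∑ j ∈ range n, f i j p q :=
        sum_congr rfl fun p _ => sum_comm

/-- **the exotic operator** -/
theorem exists_Bop {k : ℕ} (hk : 1 ≤ k) {g S : ℝ[X]} (hg : 2 * k ≤ g.natDegree)
    (hS0 : S ≠ 0) (hS : GG k g ∣ derivative (GG k g) * S)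
    (hdeg : (GG k g).natDegree + S.natDegree ≤ k) :
    ∃ b : ℕ → ℕ → ℝ[X], (∀ i j, b i j = b j i) ∧ b k k ≠ 0 ∧
      ∀ u ∈ Wg k g, ∀ v ∈ Wg k g, Bop k b u v ∈ Wg k g := by
  have hG : GG k g ≠ 0 := GG_ne hk hg
  obtain ⟨ι, _, x, d, hd, hrep⟩ := exists_nodes _ (Wd k (GG k g)) inferInstance le_rfl
  choose r hr hdr using hd
  -- the kernel
  set κ : ι → ι → ℝ[X] := fun a b => KK k g S (x a) (x b) with hκ
  have hK1 : ∀ y z t, (KK k g S y z).eval t =
      ∑ a, (KK k g S (x a) z).eval t * (d a).eval y := by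
    intro y z t
    obtain ⟨h, hh, h2, -⟩ := claimP hk hg hS hdeg z t
    have h3 := congrArg (eval y) (hrep h hh)
    rw [h2 y, eval_finsetSum] at h3
    rw [h3]
    refine sum_congr rfl fun a _ => ?_
    rw [eval_mul, eval_C, h2]
  have hK2 : ∀ p z t, (KK k g S (x p) z).eval t = ∑ q, (κ p q).eval t * (d q).eval z := by
    intro p z t
    rw [KK_symm, hK1 z (x p) t]
    refine sum_congr rfl fun q _ => ?_
    rw [KK_symm]
  let b : ℕ → ℕ → ℝ[X] := fun i j => ∑ p, ∑ q,
    C ((-1) ^ i * (-1) ^ j) * derivative^[2 * k - 1 - i] (r p) *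
      derivative^[2 * k - 1 - j] (r q) * κ p q
  have hsymm : ∀ i j, b i j = b j i := by
    intro i j
    simp only [b]
    rw [sum_comm]
    refine sum_congr rfl fun p _ => sum_congr rfl fun q _ => ?_
    rw [show κ q p = κ p q from KK_symm _ _, mul_comm ((-1 : ℝ) ^ i)]
    ring
  -- the values on the generators
  have hval : ∀ y z, Bop k b (w k g y y) (w k g z z) = KK k g S y z := by
    intro y z
    refine eq_of_infinite_eval_eq _ _ ?_
    have hfin : {t : ℝ | (GG k g).eval t = 0}.Finite := by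
      refine ((GG k g).roots.toFinset.finite_toSet).subset ?_
      intro t ht
      rw [mem_coe, Multiset.mem_toFinset, mem_roots hG]
      exact ht
    refine hfin.infinite_compl.mono ?_
    intro t ht
    have ht0 : (GG k g).eval t ≠ 0 := ht
    rw [Set.mem_ofPred_eq]
    -- the value as a double sum
    have e1 : (Bop k b (w k g y y) (w k g z z)).eval t =
        ∑ p, ∑ q, (κ p q).eval t * Lam k t (w k g y y) (r p) * Lam k t (w k g z z) (r q) := by
      have e2 : ∀ p q, (κ p q).eval t * Lam k t (w k g y y) (r p) * Lam k t (w k g z z) (r q) =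
          ∑ i ∈ range (k + 1), ∑ j ∈ range (k + 1),
            (C ((-1) ^ i * (-1) ^ j) * derivative^[2 * k - 1 - i] (r p) *
            derivative^[2 * k - 1 - j] (r q) * κ p q * derivative^[i] (w k g y y) *
            derivative^[j] (w k g z z)).eval t := by
        intro p q
        rw [Lam, Lam, mul_assoc, sum_mul_sum, mul_sum]
        refine sum_congr rfl fun i _ => ?_
        rw [mul_sum]
        refine sum_congr rfl fun j _ => ?_
        simp only [eval_mul, eval_C]
        ring
      simp only [e2]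
      rw [← sum4, Bop, eval_finsetSum]
      refine sum_congr rfl fun i _ => ?_
      rw [eval_finsetSum]
      refine sum_congr rfl fun j _ => ?_
      simp only [b, sum_mul, eval_finsetSum]
    let c1 : ι → ℝ := fun q => ∑ p, (κ p q).eval t * Lam k t (w k g y y) (r p)
    let c2 : ι → ℝ := fun q => ∑ p, (κ p q).eval t * (d p).eval y
    have hP2 : ∀ z', (∑ q, C (c2 q) * d q).eval z' = (KK k g S y z').eval t := by
      intro z'
      rw [hK1 y z' t, eval_finsetSum]
      simp only [hK2, sum_mul, eval_mul, eval_C, c2]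
      rw [sum_comm]
      refine sum_congr rfl fun p _ => sum_congr rfl fun q _ => ?_
      ring
    have hP1 : ∀ z', (∑ q, C (c1 q) * d q).eval z' = (KK k g S y z').eval t := by
      intro z'
      obtain ⟨h, hh, h2, h3⟩ := claimP hk hg hS hdeg z' t
      have h4 : derivative h = GG k g * ∑ p, C ((KK k g S (x p) z').eval t) * r p := by
        conv_lhs => rw [hrep h hh]
        rw [derivative_sum, mul_sum]
        refine sum_congr rfl fun p _ => ?_
        rw [derivative_C_mul, hdr, h2]
        ring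
      have h5 : ∑ p, C ((KK k g S (x p) z').eval t) * r p ∈ degreeLT ℝ (2 * k) := by
        refine Submodule.sum_mem _ fun p _ => ?_
        rw [← smul_eq_C_mul]
        exact Submodule.smul_mem _ _ (hr p)
      have h6 := lam_eq hk h5 h4 ht0 h3 y
      rw [Lam_sum, h2 y] at h6
      rw [← h6, eval_finsetSum]
      simp only [hK2, sum_mul, eval_mul, eval_C, c1]
      rw [sum_comm]
      refine sum_congr rfl fun p _ => sum_congr rfl fun q _ => ?_
      ring
    have hP : ∑ q, C (c1 q) * d q = ∑ q, C (c2 q) * d q :=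
      Polynomial.funext fun z' => by rw [hP1, hP2]
    have hR : ∑ q, C (c1 q) * r q = ∑ q, C (c2 q) * r q := by
      refine mul_left_cancel₀ hG ?_
      have h7 := congrArg derivative hP
      rw [derivative_sum, derivative_sum] at h7
      simp only [derivative_C_mul, hdr] at h7
      rw [mul_sum, mul_sum]
      calc ∑ q, GG k g * (C (c1 q) * r q) = ∑ q, C (c1 q) * (GG k g * r q) :=
            sum_congr rfl fun q _ => by ring
        _ = ∑ q, C (c2 q) * (GG k g * r q) := h7
        _ = ∑ q, GG k g * (C (c2 q) * r q) := sum_congr rfl fun q _ => by ring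
    have e3 : (Bop k b (w k g y y) (w k g z z)).eval t =
        Lam k t (w k g z z) (∑ q, C (c1 q) * r q) := by
      rw [e1, Lam_sum]
      simp only [c1, sum_mul]
      rw [sum_comm]
    rw [e3, hR]
    obtain ⟨h, hh, h2, h3⟩ := claimP hk hg hS hdeg y t
    have h4 : ∑ q, C (c2 q) * d q = h :=
      Polynomial.funext fun z' => by rw [hP2, h2, KK_symm]
    have h5 : derivative (∑ q, C (c2 q) * d q) = GG k g * ∑ q, C (c2 q) * r q := by
      rw [derivative_sum, mul_sum]
      refine sum_congr rfl fun q _ => ?_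
      rw [derivative_C_mul, hdr]
      ring
    have h6 : ∑ q, C (c2 q) * r q ∈ degreeLT ℝ (2 * k) := by
      refine Submodule.sum_mem _ fun p _ => ?_
      rw [← smul_eq_C_mul]
      exact Submodule.smul_mem _ _ (hr p)
    have h7 : (X - C t) ^ k ∣ ∑ q, C (c2 q) * d q := by rw [h4]; exact h3
    rw [lam_eq hk h6 h5 ht0 h7 z, hP2]
  refine ⟨b, hsymm, ?_, Bop_mem (Wg_le_span hk hg) fun y z => ?_⟩
  · -- the top coefficient
    intro hb0
    have hH : HH k g S ≠ 0 := mul_ne_zero hG hS0
    obtain ⟨y, hy⟩ : ∃ y : ℝ, (HH k g S).eval y ≠ 0 := by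
      by_contra hcon
      push Not at hcon
      exact hH (Polynomial.funext fun r => by rw [hcon r, eval_zero])
    have h1 := hval y y
    have h2 : ∀ i, i ≤ k → (X - C y) ^ (2 * k - i) ∣ derivative^[i] (w k g y y) := by
      intro i _
      refine pow_sub_dvd_iterate_derivative_of_pow_dvd i ?_
      rw [w_eq, two_mul, pow_add]
      exact Dvd.intro _ rfl
    have h3 : (X - C y) ^ (2 * k + 1) ∣ Bop k b (w k g y y) (w k g y y) := by
      unfold Bop
      refine dvd_sum fun i hi => dvd_sum fun j hj => ?_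
      rw [mem_range] at hi hj
      by_cases hij : i = k ∧ j = k
      · rw [hij.1, hij.2, hb0, zero_mul, zero_mul]
        exact dvd_zero _
      · have h4 : (X - C y) ^ (2 * k + 1) ∣
            (X - C y) ^ (2 * k - i) * (X - C y) ^ (2 * k - j) := by
          rw [← pow_add]
          exact pow_dvd_pow _ (by omega)
        refine h4.trans ?_
        rw [mul_assoc]
        exact Dvd.dvd.mul_left (mul_dvd_mul (h2 i (by omega)) (h2 j (by omega))) _
    rw [h1, KK] at h3
    have h5 : (X - C y) ^ (2 * k + 1) ∣ w k g y y := by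
      have h6 := mul_ne_zero hy hy
      have h7 := Dvd.dvd.mul_left h3 (C ((HH k g S).eval y * (HH k g S).eval y)⁻¹)
      rwa [← mul_assoc, ← C_mul, inv_mul_cancel₀ h6, C_1, one_mul] at h7
    have h6 := pow_sub_dvd_iterate_derivative_of_pow_dvd (2 * k) h5
    rw [show 2 * k + 1 - 2 * k = 1 by omega, pow_one, dvd_iff_isRoot] at h6
    have h7 : derivative^[2 * k] (w k g y y) = GG k g := by
      rw [w, iterate_derivative_sub]
      rw [iterate_derivative_eq_zero (natDegree_of_mem (by omega) (rem_mem k g y y)), sub_zero]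
      rfl
    rw [h7] at h6
    apply hy
    rw [HH, eval_mul, IsRoot.def.1 h6, zero_mul]
  · rw [hval]
    exact KK_mem y z

end

end InvSub2
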