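import Pool.Agent.InvSub2.Fnl

/-!
# Exotic invariant subspaces (MP_c40997_an): equivalence in terms of `G`, a continuous family
-/

set_option autoImplicit false

namespace InvSub2

open Polynomial Finset

noncomputable section

theorem iter_comp (α β : ℝ) (p : ℝ[X]) (n : ℕ) :
    derivative^[n] (p.comp (C α * X + C β)) =
      C (α ^ n) * (derivative^[n] p).comp (C α * X + C β) := by
  induction n with
  | zero => simp
  | succ n ih =>
    rw [Function.iterate_succ_apply', ih, Function.iterate_succ_apply', derivative_C_mul,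
      derivative_comp]
    simp only [derivative_add, derivative_C_mul, derivative_X, mul_one, derivative_C, add_zero]
    rw [pow_succ, C_mul]
    ring

theorem eqv_iff {k : ℕ} (hk : 2 ≤ k) {G G' : ℝ[X]} (hG : 1 ≤ G.natDegree) (hG' : G' ≠ 0) :
    Eqv k G G' ↔ ∃ α β l : ℝ, α ≠ 0 ∧ l ≠ 0 ∧ G.comp (C α * X + C β) = C l * G' := by
  have hG0 : G ≠ 0 := by
    rintro rfl
    rw [natDegree_zero] at hG
    omega
  constructor
  · rintro ⟨I, φ, ψ, hI, h⟩
    obtain ⟨g, hg⟩ := exists_g k G
    obtain ⟨g', hg'⟩ := exists_g k G'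
    have hd := natDegree_g hg hG0
    have hd' := natDegree_g hg' hG'
    have h1 := natDegree_GG (by omega) hd
    rw [hg] at h1
    rw [V_eq (by omega) hg, V_eq (by omega) hg'] at h
    obtain ⟨α, β, l, hα, hl, hmem⟩ := equiv_affine hk (by omega) hd' hI h
    refine ⟨α, β, l / α ^ (2 * k), hα, div_ne_zero hl (pow_ne_zero _ hα), ?_⟩
    have h2 := iterate_derivative_eq_zero (natDegree_of_mem (by omega) hmem)
    rw [iterate_derivative_sub, iter_comp, iterate_derivative_C_mul] at h2
    have h3 : derivative^[2 * k] g = G := hg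
    have h4 : derivative^[2 * k] g' = G' := hg'
    rw [h3, h4, sub_eq_zero] at h2
    have h5 : (C (α ^ (2 * k)) : ℝ[X]) ≠ 0 := C_ne_zero.2 (pow_ne_zero _ hα)
    refine mul_left_cancel₀ h5 ?_
    rw [h2, ← mul_assoc, ← C_mul, mul_div_cancel₀ _ (pow_ne_zero _ hα)]
  · rintro ⟨α, β, l, hα, hl, h⟩
    refine ⟨Set.univ, fun x => (x - β) / α, fun _ => 1, Set.infinite_univ, ?_⟩
    rintro u ⟨c, hc⟩
    refine ⟨u.comp (C α * X + C β), ⟨α ^ (2 * k) * c * l, ?_⟩, ?_⟩
    · rw [iter_comp, hc, mul_comp, C_comp, h, C_mul, C_mul]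
      ring
    · intro x _
      rw [one_mul, eval_comp]
      congr 1
      simp only [eval_add, eval_mul, eval_C, eval_X]
      field_simp
      ring

/-- the cubic polynomial with roots `0, 1, r` -/
def Gr (r : ℝ) : ℝ[X] := X * (X - C 1) * (X - C r)

theorem natDegree_Gr (r : ℝ) : (Gr r).natDegree = 3 := by
  unfold Gr
  rw [natDegree_mul (mul_ne_zero X_ne_zero (X_sub_C_ne_zero 1)) (X_sub_C_ne_zero r),
    natDegree_mul X_ne_zero (X_sub_C_ne_zero 1), natDegree_X, natDegree_X_sub_C,
    natDegree_X_sub_C]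

theorem Gr_cond {k : ℕ} (hk : 6 ≤ k) (r : ℝ) :
    (Gr r).natDegree + ((Gr r).map (algebraMap ℝ ℂ)).roots.toFinset.card ≤ k := by
  have h0 : Gr r ≠ 0 := by
    intro h
    have := natDegree_Gr r
    rw [h, natDegree_zero] at this
    omega
  rw [← cond_iff h0]
  refine ⟨Gr r, h0, Dvd.intro_left _ rfl, ?_⟩
  rw [natDegree_Gr]
  exact hk

theorem Gr_eqv {k : ℕ} (hk : 2 ≤ k) {r s : ℝ} (hr : 2 ≤ r) (hs : 2 ≤ s)
    (h : Eqv k (Gr r) (Gr s)) : r = s := by
  have h0 : Gr s ≠ 0 := by
    intro h
    have := natDegree_Gr s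
    rw [h, natDegree_zero] at this
    omega
  rw [eqv_iff hk (by rw [natDegree_Gr]; omega) h0] at h
  obtain ⟨α, β, l, hα, -, h⟩ := h
  have key : ∀ x : ℝ, (Gr s).eval x = 0 →
      (α * x + β) * (α * x + β - 1) * (α * x + β - r) = 0 := by
    intro x hx
    have h1 := congrArg (eval x) h
    rw [eval_comp, eval_mul, hx, mul_zero, Gr] at h1
    simpa only [eval_mul, eval_sub, eval_add, eval_X, eval_C] using h1
  have e0 := key 0 (by simp [Gr])
  have e1 := key 1 (by simp [Gr])
  have e2 := key s (by simp [Gr])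
  simp only [mul_zero, zero_add, mul_one] at e0 e1 e2
  have c0 : β = 0 ∨ β = 1 ∨ β = r := by
    rcases mul_eq_zero.1 e0 with h1 | h1
    · rcases mul_eq_zero.1 h1 with h2 | h2
      · exact Or.inl h2
      · exact Or.inr (Or.inl (by linarith))
    · exact Or.inr (Or.inr (by linarith))
  have c1 : α + β = 0 ∨ α + β = 1 ∨ α + β = r := by
    rcases mul_eq_zero.1 e1 with h1 | h1
    · rcases mul_eq_zero.1 h1 with h2 | h2
      · exact Or.inl h2
      · exact Or.inr (Or.inl (by linarith))
    · exact Or.inr (Or.inr (by linarith))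
  have c2 : α * s + β = 0 ∨ α * s + β = 1 ∨ α * s + β = r := by
    rcases mul_eq_zero.1 e2 with h1 | h1
    · rcases mul_eq_zero.1 h1 with h2 | h2
      · exact Or.inl h2
      · exact Or.inr (Or.inl (by linarith))
    · exact Or.inr (Or.inr (by linarith))
  rcases c0 with b | b | b <;> rcases c1 with a | a | a
  · exact absurd (by linarith) hα
  · have ha : α = 1 := by linarith
    subst ha; subst b
    rcases c2 with c | c | c <;> linarith
  · have ha : α = r := by linarith
    subst ha; subst b
    rcases c2 with c | c | c <;> nlinarith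
  · have ha : α = -1 := by linarith
    subst ha; subst b
    rcases c2 with c | c | c <;> linarith
  · exact absurd (by linarith) hα
  · have ha : α = r - 1 := by linarith
    subst ha; subst b
    rcases c2 with c | c | c <;> nlinarith
  · have ha : α = -r := by linarith
    subst ha; subst b
    rcases c2 with c | c | c <;> nlinarith
  · have ha : α = 1 - r := by linarith
    subst ha
    rw [b] at c2
    rcases c2 with c | c | c <;> nlinarith
  · exact absurd (by linarith) hα

end

end InvSub2
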