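import Pool.Agent.InvSub2.Opr
import Pool.Agent.InvSub2.Eqv

/-!
# Exotic invariant subspaces (MP_c40997_an): the final theorems
-/

set_option autoImplicit false

namespace InvSub2

open Polynomial Finset

noncomputable section

theorem iter_eval (p : ℝ[X]) (n : ℕ) :
    iteratedDeriv n (fun x => p.eval x) = fun x => (derivative^[n] p).eval x := by
  induction n with
  | zero => rw [iteratedDeriv_zero]; rfl
  | succ n ih =>
    rw [iteratedDeriv_succ, ih]
    funext x
    rw [Polynomial.deriv, Function.iterate_succ_apply']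

theorem smooth_eval (p : ℝ[X]) (I : Set ℝ) :
    ContDiffOn ℝ (⊤ : ℕ∞) (fun x => p.eval x) I := by
  have h : ContDiff ℝ (⊤ : ℕ∞) (fun x : ℝ => p.eval x) := by
    have := Polynomial.contDiff_aeval (𝕜 := ℝ) p (⊤ : ℕ∞)
    simpa [Polynomial.coe_aeval_eq_eval] using this
  exact h.contDiffOn

theorem infinite_of_open {I : Set ℝ} (hI : IsOpen I) (hne : I.Nonempty) : I.Infinite := by
  obtain ⟨x, hx⟩ := hne
  exact infinite_of_mem_nhds x (hI.mem_nhds hx)

/-- the basis of the space -/
def fp (k : ℕ) (g : ℝ[X]) (j : Fin (2 * k + 1)) : ℝ[X] := if (j : ℕ) < 2 * k then X ^ (j : ℕ) else g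

theorem fp_mem {k : ℕ} (g : ℝ[X]) (j : Fin (2 * k + 1)) : fp k g j ∈ V k (GG k g) := by
  unfold fp
  split_ifs with h
  · refine ⟨0, ?_⟩
    rw [iterate_derivative_eq_zero (by rw [natDegree_X_pow]; exact h), C_0, zero_mul]
  · refine ⟨1, ?_⟩
    rw [C_1, one_mul]
    rfl

theorem V_ode {k : ℕ} {G u : ℝ[X]} (hu : u ∈ V k G) :
    G * derivative^[2 * k + 1] u = derivative G * derivative^[2 * k] u := by
  obtain ⟨c, hc⟩ := hu
  rw [Function.iterate_succ_apply', hc, derivative_C_mul]
  ring

theorem fund {k : ℕ} {g : ℝ[X]} {I : Set ℝ} (hI : I.Infinite)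
    (hG : ∀ x ∈ I, (GG k g).eval x ≠ 0) :
    Pool.Agent.InvSub.FundSys I (2 * k + 1)
      (fun j x => if (j : ℕ) = 2 * k then -((derivative (GG k g)).eval x / (GG k g).eval x) else 0)
      (fun j x => (fp k g j).eval x) := by
  have hG0 : GG k g ≠ 0 := by
    intro h
    obtain ⟨x, hx⟩ := hI.nonempty
    apply hG x hx
    rw [h, eval_zero]
  refine ⟨?_, fun j => smooth_eval _ _, ?_, ?_⟩
  · intro j
    by_cases h : (j : ℕ) = 2 * k
    · simp only [h, if_true]
      exact ((smooth_eval _ _).div (smooth_eval _ _) hG).neg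
    · simp only [h, if_false]
      exact contDiffOn_const
  · intro l x hx
    rw [iter_eval, sum_eq_single (Fin.last (2 * k))]
    · simp only [Fin.val_last, if_true]
      rw [iter_eval]
      have h1 := congrArg (eval x) (V_ode (fp_mem g l))
      rw [eval_mul, eval_mul] at h1
      have h2 := hG x hx
      field_simp
      linear_combination h1
    · intro j _ hj
      have : (j : ℕ) ≠ 2 * k := fun h => hj (Fin.ext (by rw [h, Fin.val_last]))
      simp only [this, if_false, zero_mul]
    · intro h
      exact absurd (mem_univ _) h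
  · intro c hc
    have h1 : ∑ j, C (c j) * fp k g j = 0 := by
      refine eq_of_infinite_eval_eq _ _ (hI.mono ?_)
      intro x hx
      rw [Set.mem_ofPred_eq, eval_zero, eval_finsetSum]
      simp only [eval_mul, eval_C]
      exact hc x hx
    rw [Fin.sum_univ_castSucc] at h1
    have h2 : ∀ j : Fin (2 * k), fp k g j.castSucc = X ^ (j : ℕ) := by
      intro j
      unfold fp
      rw [Fin.val_castSucc, if_pos j.2]
    have h3 : fp k g (Fin.last (2 * k)) = g := by
      unfold fp
      rw [Fin.val_last, if_neg (lt_irrefl _)]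
    have h4 : c (Fin.last (2 * k)) = 0 := by
      have h5 := congrArg (derivative^[2 * k]) h1
      rw [iter_add, iterate_derivative_sum, iterate_derivative_zero, h3,
        iterate_derivative_C_mul] at h5
      rw [sum_eq_zero, zero_add] at h5
      · rcases mul_eq_zero.1 h5 with h6 | h6
        · exact C_eq_zero.1 h6
        · exact absurd h6 hG0
      · intro j _
        rw [h2, iterate_derivative_C_mul, iterate_derivative_eq_zero
          (by rw [natDegree_X_pow]; exact j.2), mul_zero]
    rw [h4, C_0, zero_mul, add_zero] at h1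
    funext j
    refine Fin.lastCases h4 (fun i => ?_) j
    have h5 := congrArg (fun p => coeff p (i : ℕ)) h1
    simp only [h2, finsetSum_coeff, coeff_C_mul, coeff_X_pow, coeff_zero] at h5
    rw [sum_eq_single i] at h5
    · simpa using h5
    · intro j _ hj
      rw [if_neg (fun h => hj (Fin.ext h.symm)), mul_zero]
    · intro h
      exact absurd (mem_univ _) h

theorem adm_iff {k : ℕ} (hk : 1 ≤ k) {G : ℝ[X]} {I : Set ℝ} (hI : IsOpen I) (hc : I.OrdConnected)
    (hne : I.Nonempty) (hG : ∀ x ∈ I, G.eval x ≠ 0) :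
    Adm k G I ↔ G.natDegree + (G.map (algebraMap ℝ ℂ)).roots.toFinset.card ≤ k := by
  have hinf := infinite_of_open hI hne
  have hG0 : G ≠ 0 := by
    rintro rfl
    obtain ⟨x, hx⟩ := hne
    exact hG x hx eval_zero
  obtain ⟨g, hg⟩ := exists_g k G
  have hd := natDegree_g hg hG0
  rw [← cond_iff hG0]
  constructor
  · rintro ⟨F, hF, hinv, hnl⟩
    -- `F` is quadratic
    have hfund := fund hinf (g := g) (by rw [hg]; exact hG)
    set f : Fin (2 * k + 1) → ℝ → ℝ := fun j x => (fp k g j).eval x with hf
    have hcomb : ∀ c : Fin (2 * k + 1) → ℝ, Pool.Agent.InvSub.comb f c =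
        fun x => (∑ j, C (c j) * fp k g j).eval x := by
      intro c
      funext x
      rw [Pool.Agent.InvSub.comb, eval_finsetSum]
      simp only [eval_mul, eval_C, hf]
    have hmem : ∀ c : Fin (2 * k + 1) → ℝ, ∑ j, C (c j) * fp k g j ∈ V k G := by
      intro c
      refine Submodule.sum_mem _ fun j _ => ?_
      rw [← smul_eq_C_mul]
      have := fp_mem g j
      rw [hg] at this
      exact Submodule.smul_mem _ _ this
    have hsol : ∀ c, Pool.Agent.InvSub.Sol I (2 * k + 1)
        (fun j x => if (j : ℕ) = 2 * k then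
          -((derivative (GG k g)).eval x / (GG k g).eval x) else 0)
        (fun x => F x (Pool.Agent.InvSub.jet k (Pool.Agent.InvSub.comb f c) x)) := by
      intro c x hx
      obtain ⟨v, hv, hv2⟩ := hinv _ (hmem c)
      have h1 : ∀ y ∈ I, F y (Pool.Agent.InvSub.jet k (Pool.Agent.InvSub.comb f c) y) =
          v.eval y := by
        intro y hy
        rw [← hv2 y hy]
        congr 1
        funext i
        rw [Pool.Agent.InvSub.jet, hcomb, iter_eval]
      rw [Pool.Agent.InvSub.iter_congr hI h1 _ hx, iter_eval, sum_eq_single (Fin.last (2 * k))]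
      · simp only [Fin.val_last, if_true]
        rw [Pool.Agent.InvSub.iter_congr hI h1 _ hx, iter_eval]
        have h2 := congrArg (eval x) (V_ode hv)
        rw [eval_mul, eval_mul] at h2
        have h3 := hG x hx
        rw [hg]
        field_simp
        linear_combination h2
      · intro j _ hj
        have : (j : ℕ) ≠ 2 * k := fun h => hj (Fin.ext (by rw [h, Fin.val_last]))
        simp only [this, if_false, zero_mul]
      · intro h
        exact absurd (mem_univ _) h
    obtain ⟨B, A, H, -, -, -, hBs, hFq⟩ := Pool.Agent.InvSub.quadratic hk hI hc hF hfund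
      (show 2 * k + 1 ≤ 3 * k by omega) (fun j => (hfund.coeff j).continuousOn) hsol
    -- the bilinear part
    let B' : ℕ → ℕ → ℝ → ℝ := fun i j t =>
      if h : i < k + 1 ∧ j < k + 1 then B ⟨i, h.1⟩ ⟨j, h.2⟩ t else 0
    have hB' : ∀ (i j : Fin (k + 1)) (t : ℝ), B' i j t = B i j t := by
      intro i j t
      simp only [B']
      rw [dif_pos ⟨i.2, j.2⟩]
    have hBt : ∀ t u v, Bt k B' t u v = ∑ i : Fin (k + 1), ∑ j : Fin (k + 1),
        B i j t * (derivative^[(i : ℕ)] u).eval t * (derivative^[(j : ℕ)] v).eval t := by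
      intro t u v
      rw [Bt, ← Fin.sum_univ_eq_sum_range (fun i => ∑ j ∈ range (k + 1),
        B' i j t * (derivative^[i] u).eval t * (derivative^[j] v).eval t)]
      refine sum_congr rfl fun i _ => ?_
      rw [← Fin.sum_univ_eq_sum_range (fun j =>
        B' i j t * (derivative^[(i : ℕ)] u).eval t * (derivative^[j] v).eval t)]
      refine sum_congr rfl fun j _ => ?_
      rw [hB']
    refine necessary_Bt hk hG0 hinf B' ?_ ?_ ?_
    · intro i j hi hj t _
      simp only [B']
      rw [dif_pos ⟨by omega, by omega⟩, dif_pos ⟨by omega, by omega⟩, hBs]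
    · -- polarisation
      intro u hu v hv
      obtain ⟨w1, hw1, e1⟩ := hinv _ (Submodule.add_mem _ hu hv)
      obtain ⟨w2, hw2, e2⟩ := hinv u hu
      obtain ⟨w3, hw3, e3⟩ := hinv v hv
      obtain ⟨w4, hw4, e4⟩ := hinv 0 (Submodule.zero_mem _)
      refine ⟨(1 / 2 : ℝ) • (w1 - w2 - w3 + w4), Submodule.smul_mem _ _ (Submodule.add_mem _
        (Submodule.sub_mem _ (Submodule.sub_mem _ hw1 hw2) hw3) hw4), ?_⟩
      intro t ht
      rw [eval_smul, smul_eq_mul, eval_add, eval_sub, eval_sub, ← e1 t ht, ← e2 t ht, ← e3 t ht,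
        ← e4 t ht, hFq t ht, hFq t ht, hFq t ht, hFq t ht]
      have hsy : Bt k B' t v u = Bt k B' t u v := by
        rw [hBt, hBt, sum_comm]
        refine sum_congr rfl fun i _ => sum_congr rfl fun j _ => ?_
        rw [hBs]
        ring
      have hadd : ∀ p q : ℝ[X], ∑ i : Fin (k + 1), ∑ j : Fin (k + 1), B i j t *
          (derivative^[(i : ℕ)] (p + q)).eval t * (derivative^[(j : ℕ)] (p + q)).eval t =
          Bt k B' t p p + Bt k B' t p q + Bt k B' t q p + Bt k B' t q q := by
        intro p q
        rw [← hBt, ← BtL_apply]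
        simp only [map_add, LinearMap.add_apply, BtL_apply]
        ring
      have hlin : ∀ p q : ℝ[X], ∑ i : Fin (k + 1), A i t *
          (derivative^[(i : ℕ)] (p + q)).eval t =
          ∑ i : Fin (k + 1), A i t * (derivative^[(i : ℕ)] p).eval t +
          ∑ i : Fin (k + 1), A i t * (derivative^[(i : ℕ)] q).eval t := by
        intro p q
        rw [← sum_add_distrib]
        refine sum_congr rfl fun i _ => ?_
        rw [iter_add, eval_add]
        ring
      rw [hadd, hlin, hsy, hBt t u u, hBt t v v]
      simp only [iterate_derivative_zero, eval_zero, mul_zero, sum_const_zero]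
      ring
    · by_contra hcon
      push Not at hcon
      apply hnl
      refine ⟨A, H, fun x hx v => ?_⟩
      rw [hFq x hx]
      have : ∑ i, ∑ j, B i j x * v i * v j = 0 := by
        refine sum_eq_zero fun i _ => sum_eq_zero fun j _ => ?_
        rw [← hB', hcon i j (by omega) (by omega) x hx]
        ring
      rw [this, zero_add]
  · rintro ⟨S, hS0, hS, hdeg⟩
    obtain ⟨b, hbs, hbk, hb⟩ := exists_Bop hk hd hS0 (by rw [hg]; exact hS) (by rw [hg]; exact hdeg)
    refine ⟨fun x v => ∑ i : Fin (k + 1), ∑ j : Fin (k + 1), (b i j).eval x * v i * v j, ?_, ?_, ?_⟩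
    · refine ContDiffOn.sum fun i _ => ContDiffOn.sum fun j _ => ?_
      have h1 : ContDiff ℝ (⊤ : ℕ∞) (fun x : ℝ => (b i j).eval x) := by
        have := Polynomial.contDiff_aeval (𝕜 := ℝ) (b i j) (⊤ : ℕ∞)
        simpa [Polynomial.coe_aeval_eq_eval] using this
      have h2 : ∀ l : Fin (k + 1), ContDiff ℝ (⊤ : ℕ∞)
          (fun p : ℝ × (Fin (k + 1) → ℝ) => p.2 l) := fun l =>
        (contDiff_apply ℝ ℝ l).comp contDiff_snd
      exact (((h1.comp contDiff_fst).mul (h2 i)).mul (h2 j)).contDiffOn
    · intro u hu
      refine ⟨Bop k b u u, ?_, ?_⟩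
      · rw [V_eq hk hg] at hu ⊢
        exact hb u hu u hu
      · intro x _
        rw [Bop, eval_finsetSum, ← Fin.sum_univ_eq_sum_range (fun i => eval x (∑ j ∈ range (k + 1),
          b i j * derivative^[i] u * derivative^[j] u))]
        refine sum_congr rfl fun i _ => ?_
        rw [eval_finsetSum, ← Fin.sum_univ_eq_sum_range (fun j => eval x
          (b i j * derivative^[(i : ℕ)] u * derivative^[j] u))]
        refine sum_congr rfl fun j _ => ?_
        rw [eval_mul, eval_mul]
    · rintro ⟨a, h, hah⟩
      -- the coefficient of `v_k ^ 2`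
      apply hbk
      refine eq_of_infinite_eval_eq _ _ (hinf.mono ?_)
      intro x hx
      rw [Set.mem_ofPred_eq, eval_zero]
      have hsingle : ∀ s : ℝ, ∑ i : Fin (k + 1), ∑ j : Fin (k + 1), (b i j).eval x *
          (Pi.single (Fin.last k) s : Fin (k + 1) → ℝ) i *
          (Pi.single (Fin.last k) s : Fin (k + 1) → ℝ) j = (b k k).eval x * s * s := by
        intro s
        rw [sum_eq_single (Fin.last k), sum_eq_single (Fin.last k)]
        · simp
        · intro j _ hj
          rw [Pi.single_eq_of_ne hj, mul_zero]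
        · intro h'
          exact absurd (mem_univ _) h'
        · intro i _ hi
          refine sum_eq_zero fun j _ => ?_
          rw [Pi.single_eq_of_ne hi]
          ring
        · intro h'
          exact absurd (mem_univ _) h'
      have hlin : ∀ s : ℝ, ∑ i : Fin (k + 1), a i x *
          (Pi.single (Fin.last k) s : Fin (k + 1) → ℝ) i = a (Fin.last k) x * s := by
        intro s
        rw [sum_eq_single (Fin.last k)]
        · simp
        · intro i _ hi
          rw [Pi.single_eq_of_ne hi, mul_zero]
        · intro h'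
          exact absurd (mem_univ _) h'
      have h0 := hah x hx (Pi.single (Fin.last k) 0)
      have h1 := hah x hx (Pi.single (Fin.last k) 1)
      have h2 := hah x hx (Pi.single (Fin.last k) (-1))
      simp only [hsingle, hlin] at h0 h1 h2
      linarith

end

end InvSub2
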