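import Pool.Agent.InvSub2.Conv

/-!
# Exotic invariant subspaces (MP_c40997_an): the necessary condition
-/

set_option autoImplicit false

namespace InvSub2

open Polynomial Finset

noncomputable section

variable {k : ℕ} {g : ℝ[X]} {b : ℕ → ℕ → ℝ[X]}

/-- `c(x, y)` as a polynomial in `y` -/
def cc (k : ℕ) (g : ℝ[X]) (b : ℕ → ℕ → ℝ[X]) (x : ℝ) : ℝ[X] :=
  Eop k g (bev k b (gco g) (w k g x x))

theorem cc_eval (hg : 2 * k ≤ g.natDegree) (x y : ℝ) :
    (cc k g b x).eval y = gco g (Bop k b (w k g y y) (w k g x x)) := by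
  rw [cc, Eop_eval hg, bev_apply]

theorem cc_symm (hg : 2 * k ≤ g.natDegree) (hb : ∀ i j, b i j = b j i) (x y : ℝ) :
    (cc k g b x).eval y = (cc k g b y).eval x := by
  rw [cc_eval hg, cc_eval hg, Bop_symm hb]

/-- the kernel factorises -/
theorem Eop_leval (hk : 1 ≤ k) (hg : 2 * k ≤ g.natDegree)
    (hinv : ∀ u ∈ Wg k g, ∀ v ∈ Wg k g, Bop k b u v ∈ Wg k g) (y t : ℝ) :
    Eop k g (bev k b (Polynomial.leval t) (w k g y y)) = cc k g b y * hw k g y t := by
  refine Polynomial.funext fun x => ?_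
  rw [Eop_eval hg, bev_apply, eval_mul, cc_eval hg, hw_eval, Polynomial.leval_apply,
    Bop_w hk hg hinv, eval_mul, eval_C]
  congr 2
  rw [← Bop_w hk hg hinv]

theorem natDegree_cc (hk : 1 ≤ k) (hg : 2 * k ≤ g.natDegree)
    (hinv : ∀ u ∈ Wg k g, ∀ v ∈ Wg k g, Bop k b u v ∈ Wg k g) (y : ℝ) :
    (cc k g b y).natDegree ≤ k := by
  by_cases h0 : cc k g b y = 0
  · rw [h0, natDegree_zero]
    omega
  have h1 := natDegree_Wd hk hg (Eop_mem hk g (bev k b (Polynomial.leval (y + 1)) (w k g y y)))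
  rw [Eop_leval hk hg hinv] at h1
  have h2 : (hw k g y (y + 1)).coeff (g.natDegree - k) ≠ 0 := by
    rw [coeff_hw hk hg, add_sub_cancel_left, one_pow, mul_one]
    exact kap_ne hk hg
  have h3 : hw k g y (y + 1) ≠ 0 := by
    intro h
    rw [h, coeff_zero] at h2
    exact h2 rfl
  rw [natDegree_mul h0 h3] at h1
  have h4 := le_natDegree_of_ne_zero h2
  omega

theorem Bop_eq_zero (hk : 1 ≤ k) (hz : ∀ u ∈ Wg k g, ∀ v ∈ Wg k g, Bop k b u v = 0) :
    ∀ i j, i ≤ k → j ≤ k → b i j = 0 := by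
  intro i j hi hj
  refine Polynomial.funext fun t => ?_
  have hm : ∀ i, i ≤ k → (X - C t) ^ i ∈ Wg k g := by
    intro i hi
    refine Submodule.mem_sup_left (mem_degreeLT' ?_)
    rw [natDegree_pow, natDegree_X_sub_C]
    omega
  have hd : ∀ i l : ℕ, l ≠ i → (derivative^[l] ((X - C t) ^ i : ℝ[X])).eval t = 0 := by
    intro i l hl
    rcases lt_or_gt_of_ne hl with h | h
    · have h3 := pow_sub_dvd_iterate_derivative_of_pow_dvd l
        (dvd_refl ((X - C t : ℝ[X]) ^ i))
      have h4 : (X - C t) ∣ derivative^[l] ((X - C t : ℝ[X]) ^ i) :=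
        (dvd_pow_self _ (by omega : i - l ≠ 0)).trans h3
      rw [← IsRoot.def]
      exact dvd_iff_isRoot.1 h4
    · rw [iterate_derivative_eq_zero (by rw [natDegree_pow, natDegree_X_sub_C]; omega), eval_zero]
  have hs : ∀ i : ℕ, (derivative^[i] ((X - C t) ^ i : ℝ[X])).eval t ≠ 0 := by
    intro i
    rw [iterate_derivative_X_sub_pow_self]
    simp [Nat.factorial_ne_zero]
  have h1 := congrArg (eval t) (hz _ (hm i hi) _ (hm j hj))
  rw [Bop, eval_finsetSum, sum_eq_single i, eval_finsetSum, sum_eq_single j] at h1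
  · rw [eval_mul, eval_mul, eval_zero] at h1
    rw [eval_zero]
    rcases mul_eq_zero.1 h1 with h2 | h2
    · rcases mul_eq_zero.1 h2 with h3 | h3
      · exact h3
      · exact absurd h3 (hs i)
    · exact absurd h2 (hs j)
  · intro l _ hl
    rw [eval_mul, hd j l hl, mul_zero]
  · intro h
    exact absurd (mem_range.2 (by omega)) h
  · intro l _ hl
    rw [eval_finsetSum]
    refine sum_eq_zero fun m _ => ?_
    rw [eval_mul, eval_mul, hd i l hl]
    ring
  · intro h
    exact absurd (mem_range.2 (by omega)) h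

theorem exists_cc_ne (hk : 1 ≤ k) (hg : 2 * k ≤ g.natDegree)
    (hinv : ∀ u ∈ Wg k g, ∀ v ∈ Wg k g, Bop k b u v ∈ Wg k g)
    (hne : ∃ i j, i ≤ k ∧ j ≤ k ∧ b i j ≠ 0) : ∃ x, cc k g b x ≠ 0 := by
  by_contra hcon
  push Not at hcon
  obtain ⟨i, j, hi, hj, hij⟩ := hne
  refine hij (Bop_eq_zero hk (g := g) ?_ i j hi hj)
  have h1 : ∀ x y, Bop k b (w k g x x) (w k g y y) = 0 := by
    intro x y
    rw [Bop_w hk hg hinv, ← cc_eval hg, hcon, eval_zero, C_0, zero_mul]
  have hs := Wg_le_span hk hg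
  have h2 : ∀ x, ∀ v ∈ Wg k g, Bop k b (w k g x x) v = 0 := by
    intro x v hv
    refine Submodule.span_induction ?_ ?_ ?_ ?_ (hs hv)
    · rintro _ ⟨y, rfl⟩
      exact h1 x y
    · exact Bop_zero_right _ _ _
    · intro a c _ _ ha hc
      rw [Bop_add_right, ha, hc, add_zero]
    · intro c a _ ha
      rw [Bop_smul_right, ha, smul_zero]
  intro u hu v hv
  refine Submodule.span_induction ?_ ?_ ?_ ?_ (hs hu)
  · rintro _ ⟨y, rfl⟩
    exact h2 y v hv
  · exact Bop_zero_left _ _ _
  · intro a c _ _ ha hc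
    rw [Bop_add_left, ha, hc, add_zero]
  · intro c a _ ha
    rw [Bop_smul_left, ha, smul_zero]

/-- **the necessary condition** -/
theorem necessary (hk : 1 ≤ k) (hg : 2 * k ≤ g.natDegree) (hb : ∀ i j, b i j = b j i)
    (hinv : ∀ u ∈ Wg k g, ∀ v ∈ Wg k g, Bop k b u v ∈ Wg k g)
    (hne : ∃ i j, i ≤ k ∧ j ≤ k ∧ b i j ≠ 0) :
    ∃ S : ℝ[X], S ≠ 0 ∧ GG k g ∣ derivative (GG k g) * S ∧
      (GG k g).natDegree + S.natDegree ≤ k := by
  classical
  have hG := GG_ne hk hg
  -- the largest degree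
  obtain ⟨x0, hx0⟩ := exists_cc_ne hk hg hinv hne
  let P : ℕ → Prop := fun m => ∃ x, (cc k g b x).coeff m ≠ 0
  have hP0 : P (cc k g b x0).natDegree := ⟨x0, by
    rw [coeff_natDegree]
    exact leadingCoeff_ne_zero.2 hx0⟩
  have hPk : ∀ m, P m → m ≤ k := by
    rintro m ⟨x, hx⟩
    exact (le_natDegree_of_ne_zero hx).trans (natDegree_cc hk hg hinv x)
  obtain ⟨M, hM, hMax⟩ : ∃ M, P M ∧ ∀ m, P m → m ≤ M :=
    ⟨Nat.findGreatest P k, Nat.findGreatest_spec (hPk _ hP0) hP0, fun m hm =>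
      Nat.le_findGreatest (hPk m hm) hm⟩
  have hdM : ∀ x, (cc k g b x).natDegree ≤ M := by
    intro x
    rw [natDegree_le_iff_coeff_eq_zero]
    intro m hm
    by_contra hcon
    exact absurd (hMax m ⟨x, hcon⟩) (by omega)
  -- the leading coefficient as a polynomial in `x`
  set cs : ℝ[X] := Eop k g (coefL k g (bev k b (gco g)) M) with hcs
  have hcs1 : ∀ x, cs.eval x = (cc k g b x).coeff M := by
    intro x
    rw [hcs, Eop_eval hg]
    rfl
  have hcs0 : cs ≠ 0 := by
    intro h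
    obtain ⟨x, hx⟩ := hM
    rw [← hcs1, h, eval_zero] at hx
    exact hx rfl
  -- divisibility
  have hw1 : ∀ t, Eop k g (coefL k g (bev k b (Polynomial.leval t)) (M + (g.natDegree - k))) =
      C (kap k g) * cs * (C t - X) ^ k := by
    intro t
    refine Polynomial.funext fun x => ?_
    rw [Eop_eval hg]
    have h1 : coefL k g (bev k b (Polynomial.leval t)) (M + (g.natDegree - k)) (w k g x x) =
        (Eop k g (bev k b (Polynomial.leval t) (w k g x x))).coeff (M + (g.natDegree - k)) := rfl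
    rw [h1, Eop_leval hk hg hinv, coeff_mul_add_eq_of_natDegree_le (hdM x) (natDegree_hw hg x t),
      coeff_hw hk hg, ← hcs1]
    simp only [eval_mul, eval_C, eval_pow, eval_sub, eval_X]
    ring
  have hG1 : GG k g ∣ derivative cs := by
    obtain ⟨r, -, hr⟩ := Eop_mem hk g (coefL k g (bev k b (gco g)) M)
    rw [← hcs] at hr
    exact ⟨r, hr⟩
  obtain ⟨t, ht⟩ : ∃ t : ℝ, (GG k g).eval t ≠ 0 := by
    by_contra hcon
    push Not at hcon
    exact hG (Polynomial.funext fun r => by rw [hcon r, eval_zero])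
  have hG2 : GG k g ∣ cs := by
    obtain ⟨r, -, hr⟩ := Eop_mem hk g
      (coefL k g (bev k b (Polynomial.leval t)) (M + (g.natDegree - k)))
    rw [hw1] at hr
    have h1 : derivative (C (kap k g) * cs * (C t - X) ^ k) =
        C (kap k g) * (C t - X) ^ k * derivative cs -
          C (kap k g * k) * (C t - X) ^ (k - 1) * cs := by
      rw [derivative_mul, derivative_C_mul, derivative_pow, derivative_sub, derivative_C,
        derivative_X, C_mul]
      ring
    rw [h1] at hr
    have h2 : GG k g ∣ C (kap k g * k) * (C t - X) ^ (k - 1) * cs := by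
      have h3 : GG k g ∣ C (kap k g) * (C t - X) ^ k * derivative cs := Dvd.dvd.mul_left hG1 _
      have h4 : C (kap k g * k) * (C t - X) ^ (k - 1) * cs =
          C (kap k g) * (C t - X) ^ k * derivative cs - GG k g * r := by
        linear_combination (-1 : ℝ[X]) * hr
      rw [h4]
      exact dvd_sub h3 (Dvd.intro _ rfl)
    have h3 : IsCoprime (GG k g) (C (kap k g * k) * (C t - X) ^ (k - 1)) := by
      refine IsCoprime.mul_right ?_ (IsCoprime.pow_right ?_)
      · have h5 : kap k g * k ≠ 0 := mul_ne_zero (kap_ne hk hg) (Nat.cast_ne_zero.2 (by omega))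
        refine ⟨0, C (kap k g * k)⁻¹, ?_⟩
        rw [zero_mul, zero_add, ← C_mul, inv_mul_cancel₀ h5, C_1]
      · rw [show (C t - X : ℝ[X]) = -(X - C t) by ring]
        refine IsCoprime.neg_right ?_
        rw [isCoprime_comm]
        refine (irreducible_X_sub_C t).coprime_iff_not_dvd.2 ?_
        intro h
        exact ht (dvd_iff_isRoot.1 h)
    exact h3.dvd_of_dvd_mul_left h2
  -- the degree
  have hdeg : cs.natDegree ≤ k := by
    obtain ⟨ι, _, x, d, -, hrep⟩ := exists_nodes _ (degreeLT ℝ (k + 1))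
      (degreeLTEquiv ℝ _).symm.finiteDimensional le_rfl
    have h1 : cs = ∑ a, C ((d a).coeff M) * cc k g b (x a) := by
      refine Polynomial.funext fun z => ?_
      rw [hcs1]
      have h2 := hrep (cc k g b z)
        (mem_degreeLT' (Nat.lt_succ_of_le (natDegree_cc hk hg hinv z)))
      have h3 := congrArg (fun p => coeff p M) h2
      simp only [finsetSum_coeff, coeff_C_mul] at h3
      rw [h3, eval_finsetSum]
      refine sum_congr rfl fun a _ => ?_
      rw [eval_mul, eval_C, cc_symm hg hb]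
      ring
    rw [h1]
    refine natDegree_sum_le_of_forall_le _ _ fun a _ => ?_
    exact (natDegree_C_mul_le _ _).trans (natDegree_cc hk hg hinv _)
  obtain ⟨S, hS⟩ := hG2
  have hS0 : S ≠ 0 := by
    rintro rfl
    rw [mul_zero] at hS
    exact hcs0 hS
  refine ⟨S, hS0, ?_, ?_⟩
  · have h1 : derivative (GG k g) * S = derivative cs - GG k g * derivative S := by
      rw [hS, derivative_mul]
      ring
    rw [h1]
    exact dvd_sub hG1 (Dvd.intro _ rfl)
  · rw [hS, natDegree_mul hG hS0] at hdeg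
    exact hdeg

end

end InvSub2
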