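import Pool.Agent.InvSub2.Defs
import Pool.Agent.InvSub2.Nec

/-!
# Exotic invariant subspaces (MP_c40997_an): the two descriptions of the space; roots
-/

set_option autoImplicit false

namespace InvSub2

open Polynomial Finset

noncomputable section

theorem natDegree_lt_of_iter {n : ℕ} (hn : 1 ≤ n) {p : ℝ[X]} (h : derivative^[n] p = 0) :
    p.natDegree < n := by
  by_contra hcon
  push Not at hcon
  have h1 : coeff (derivative^[n] p) (p.natDegree - n) = 0 := by rw [h, coeff_zero]
  rw [coeff_iterate_derivative, Nat.sub_add_cancel hcon, nsmul_eq_mul, mul_eq_zero] at h1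
  rcases h1 with h1 | h1
  · exact Nat.cast_ne_zero.2 (Nat.descFactorial_pos.2 hcon).ne' h1
  · rw [coeff_natDegree, leadingCoeff_eq_zero] at h1
    rw [h1, natDegree_zero] at hcon
    omega

theorem exists_g (k : ℕ) (G : ℝ[X]) : ∃ g : ℝ[X], GG k g = G := by
  refine ⟨∑ n ∈ range (G.natDegree + 1),
    C (G.coeff n * (((n + 2 * k).descFactorial (2 * k) : ℕ) : ℝ)⁻¹) * X ^ (n + 2 * k), ?_⟩
  rw [GG, iterate_derivative_sum]
  conv_rhs => rw [as_sum_range_C_mul_X_pow G]
  refine sum_congr rfl fun n _ => ?_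
  rw [iterate_derivative_C_mul, iterate_derivative_X_pow_eq_C_mul, Nat.add_sub_cancel, ← mul_assoc,
    ← C_mul]
  have h1 : (((n + 2 * k).descFactorial (2 * k) : ℕ) : ℝ) ≠ 0 :=
    Nat.cast_ne_zero.2 (Nat.descFactorial_pos.2 (by omega)).ne'
  rw [inv_mul_cancel_right₀ h1]

theorem natDegree_g {k : ℕ} {g G : ℝ[X]} (h : GG k g = G) (hG : G ≠ 0) :
    2 * k ≤ g.natDegree := by
  by_contra hcon
  push Not at hcon
  apply hG
  rw [← h, GG, iterate_derivative_eq_zero hcon]

theorem V_eq {k : ℕ} (hk : 1 ≤ k) {g G : ℝ[X]} (h : GG k g = G) : V k G = Wg k g := by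
  apply le_antisymm
  · rintro u ⟨c, hc⟩
    have h1 : u - c • g ∈ degreeLT ℝ (2 * k) := by
      refine mem_degreeLT' (natDegree_lt_of_iter (by omega) ?_)
      rw [iterate_derivative_sub, iterate_derivative_smul, hc, ← h, smul_eq_C_mul, GG, sub_self]
    have h2 : u = (u - c • g) + c • g := by ring
    rw [h2]
    exact Submodule.add_mem _ (Submodule.mem_sup_left h1)
      (Submodule.smul_mem _ c (g_mem k g))
  · refine sup_le ?_ ?_
    · intro u hu
      refine ⟨0, ?_⟩
      rw [iterate_derivative_eq_zero (natDegree_of_mem (by omega) hu), C_0, zero_mul]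
    · rw [Submodule.span_singleton_le_iff_mem]
      refine ⟨1, ?_⟩
      rw [C_1, one_mul]
      exact h

theorem finrank_V {k : ℕ} (hk : 1 ≤ k) {G : ℝ[X]} (hG : G ≠ 0) :
    Module.finrank ℝ (V k G) = 2 * k + 1 := by
  obtain ⟨g, hg⟩ := exists_g k G
  have hd := natDegree_g hg hG
  rw [V_eq hk hg, Wg]
  have hfd : FiniteDimensional ℝ (degreeLT ℝ (2 * k)) :=
    (degreeLTEquiv ℝ _).symm.finiteDimensional
  have h1 : degreeLT ℝ (2 * k) ⊓ Submodule.span ℝ {g} = ⊥ := by
    rw [Submodule.eq_bot_iff]
    rintro x ⟨hx1, hx2⟩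
    obtain ⟨c, rfl⟩ := Submodule.mem_span_singleton.1 hx2
    have h2 := natDegree_of_mem (by omega) hx1
    by_cases hc : c = 0
    · rw [hc, zero_smul]
    · rw [natDegree_smul _ hc] at h2
      omega
  have h3 := Submodule.finrank_sup_add_finrank_inf_eq (degreeLT ℝ (2 * k))
    (Submodule.span ℝ {g})
  rw [h1, finrank_bot, add_zero] at h3
  rw [h3, finrank_span_singleton (by
    rintro rfl
    rw [natDegree_zero] at hd
    omega), (degreeLTEquiv ℝ (2 * k)).finrank_eq]
  simp

/-- the condition on `G` in terms of complex roots -/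
theorem cond_iff {G : ℝ[X]} (hG : G ≠ 0) (k : ℕ) :
    (∃ S : ℝ[X], S ≠ 0 ∧ G ∣ derivative G * S ∧ G.natDegree + S.natDegree ≤ k) ↔
      G.natDegree + (G.map (algebraMap ℝ ℂ)).roots.toFinset.card ≤ k := by
  classical
  have hinj : Function.Injective (algebraMap ℝ ℂ) := (algebraMap ℝ ℂ).injective
  have hGc : G.map (algebraMap ℝ ℂ) ≠ 0 := (Polynomial.map_ne_zero_iff hinj).2 hG
  constructor
  · rintro ⟨S, hS0, hS, hdeg⟩
    have hSc : S.map (algebraMap ℝ ℂ) ≠ 0 := (Polynomial.map_ne_zero_iff hinj).2 hS0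
    have h1 : (G.map (algebraMap ℝ ℂ)).roots.toFinset ⊆
        (S.map (algebraMap ℝ ℂ)).roots.toFinset := by
      intro p hp
      rw [Multiset.mem_toFinset, mem_roots hGc] at hp
      rw [Multiset.mem_toFinset, mem_roots hSc]
      by_contra hcon
      have h2 : G.map (algebraMap ℝ ℂ) ∣
          derivative (G.map (algebraMap ℝ ℂ)) * S.map (algebraMap ℝ ℂ) := by
        rw [derivative_map, ← Polynomial.map_mul]
        exact Polynomial.map_dvd _ hS
      have h3 := derivative_rootMultiplicity_of_root hp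
      have h4 : 0 < (G.map (algebraMap ℝ ℂ)).rootMultiplicity p :=
        (rootMultiplicity_pos hGc).2 hp
      have hd0 : derivative (G.map (algebraMap ℝ ℂ)) ≠ 0 := by
        intro h
        rw [derivative_eq_zero] at h
        rw [eq_C_of_natDegree_eq_zero h, IsRoot.def, eval_C] at hp
        rw [eq_C_of_natDegree_eq_zero h, hp, C_0] at hGc
        exact hGc rfl
      have h5 : (G.map (algebraMap ℝ ℂ)).rootMultiplicity p ≤
          (derivative (G.map (algebraMap ℝ ℂ)) * S.map (algebraMap ℝ ℂ)).rootMultiplicity p :=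
        rootMultiplicity_le_rootMultiplicity_of_dvd (mul_ne_zero hd0 hSc) h2 p
      rw [rootMultiplicity_mul (mul_ne_zero hd0 hSc), h3,
        rootMultiplicity_eq_zero hcon] at h5
      omega
    have h2 := card_le_card h1
    have h3 : (S.map (algebraMap ℝ ℂ)).roots.toFinset.card ≤ S.natDegree :=
      (Multiset.toFinset_card_le _).trans ((card_roots' _).trans natDegree_map_le)
    omega
  · intro hdeg
    set R := UniqueFactorizationMonoid.radical G with hR
    have hRG : R ∣ G := UniqueFactorizationMonoid.radical_dvd_self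
    have hR0 : R ≠ 0 := fun h => hG (zero_dvd_iff.1 (h ▸ hRG))
    refine ⟨R, hR0, ?_, ?_⟩
    · have h1 := divRadical_dvd_derivative G
      have h2 : R * EuclideanDomain.divRadical G = G :=
        EuclideanDomain.radical_mul_divRadical
      obtain ⟨c, hc⟩ := h1
      refine ⟨c, ?_⟩
      rw [hc]
      linear_combination c * h2
    · have h1 : R.Separable := PerfectField.separable_iff_squarefree.2
        UniqueFactorizationMonoid.squarefree_radical
      have h2 := nodup_roots (h1.map (f := algebraMap ℝ ℂ))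
      have h3 : (R.map (algebraMap ℝ ℂ)).roots.card = R.natDegree := by
        rw [← natDegree_map (p := R) (algebraMap ℝ ℂ)]
        exact (splits_iff_card_roots.1 (IsAlgClosed.splits _))
      have h4 : (R.map (algebraMap ℝ ℂ)).roots.toFinset ⊆
          (G.map (algebraMap ℝ ℂ)).roots.toFinset := by
        intro p hp
        rw [Multiset.mem_toFinset] at hp ⊢
        exact Multiset.mem_of_le (roots.le_of_dvd hGc (Polynomial.map_dvd _ hRG)) hp
      have h5 := card_le_card h4
      rw [Multiset.toFinset_card_of_nodup h2, h3] at h5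
      omega

end

end InvSub2
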