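import Pool.Agent.InvSub2.Lnk
import Pool.Agent.InvSub.Quad

/-!
# Exotic invariant subspaces (MP_c40997_an): from operators to polynomial coefficients
-/

set_option autoImplicit false

namespace InvSub2

open Polynomial Finset

noncomputable section

/-- the values of a bilinear operator with function coefficients -/
def Bt (k : ℕ) (B : ℕ → ℕ → ℝ → ℝ) (t : ℝ) (u v : ℝ[X]) : ℝ :=
  ∑ i ∈ range (k + 1), ∑ j ∈ range (k + 1),
    B i j t * (derivative^[i] u).eval t * (derivative^[j] v).eval t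

/-- the same as a bilinear map -/
def BtL (k : ℕ) (B : ℕ → ℕ → ℝ → ℝ) (t : ℝ) : ℝ[X] →ₗ[ℝ] ℝ[X] →ₗ[ℝ] ℝ :=
  LinearMap.mk₂ ℝ (Bt k B t)
    (fun u u' v => by
      unfold Bt
      rw [← sum_add_distrib]
      refine sum_congr rfl fun i _ => ?_
      rw [← sum_add_distrib]
      refine sum_congr rfl fun j _ => ?_
      rw [iter_add, eval_add]
      ring)
    (fun c u v => by
      unfold Bt
      rw [smul_eq_mul, mul_sum]
      refine sum_congr rfl fun i _ => ?_
      rw [mul_sum]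
      refine sum_congr rfl fun j _ => ?_
      rw [iterate_derivative_smul, eval_smul, smul_eq_mul]
      ring)
    (fun u v v' => by
      unfold Bt
      rw [← sum_add_distrib]
      refine sum_congr rfl fun i _ => ?_
      rw [← sum_add_distrib]
      refine sum_congr rfl fun j _ => ?_
      rw [iter_add, eval_add]
      ring)
    (fun c u v => by
      unfold Bt
      rw [smul_eq_mul, mul_sum]
      refine sum_congr rfl fun i _ => ?_
      rw [mul_sum]
      refine sum_congr rfl fun j _ => ?_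
      rw [iterate_derivative_smul, eval_smul, smul_eq_mul]
      ring)

theorem BtL_apply (k : ℕ) (B : ℕ → ℕ → ℝ → ℝ) (t : ℝ) (u v : ℝ[X]) :
    BtL k B t u v = Bt k B t u v := rfl

theorem sub_pow_smul (t : ℝ) (i : ℕ) : ((X - C t) ^ i : ℝ[X]) =
    ∑ m ∈ range (i + 1), ((-t) ^ (i - m) * (i.choose m : ℝ)) • X ^ m := by
  rw [sub_eq_add_neg, add_pow]
  refine sum_congr rfl fun m _ => ?_
  rw [smul_eq_C_mul, C_mul, C_pow, C_neg, ← C_eq_natCast (i.choose m)]
  simp only [map_natCast]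
  ring

theorem Bt_diag {k i j : ℕ} (B : ℕ → ℕ → ℝ → ℝ) (t : ℝ) (hi : i ≤ k) (hj : j ≤ k) :
    Bt k B t ((X - C t) ^ i) ((X - C t) ^ j) = B i j t * (i.factorial : ℝ) * (j.factorial : ℝ) := by
  have hd : ∀ i l : ℕ, l ≠ i → (derivative^[l] ((X - C t) ^ i : ℝ[X])).eval t = 0 := by
    intro i l hl
    rcases lt_or_gt_of_ne hl with h | h
    · have h3 := pow_sub_dvd_iterate_derivative_of_pow_dvd l
        (dvd_refl ((X - C t : ℝ[X]) ^ i))
      have h4 : (X - C t) ∣ derivative^[l] ((X - C t : ℝ[X]) ^ i) :=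
        (dvd_pow_self _ (by omega : i - l ≠ 0)).trans h3
      rw [← IsRoot.def]
      exact dvd_iff_isRoot.1 h4
    · rw [iterate_derivative_eq_zero (by rw [natDegree_pow, natDegree_X_sub_C]; omega), eval_zero]
  have hs : ∀ i : ℕ, (derivative^[i] ((X - C t) ^ i : ℝ[X])).eval t = (i.factorial : ℝ) := by
    intro i
    rw [iterate_derivative_X_sub_pow_self]
    simp
  rw [Bt, sum_eq_single i, sum_eq_single j, hs, hs]
  · intro l _ hl
    rw [hd j l hl, mul_zero]
  · intro h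
    exact absurd (mem_range.2 (by omega)) h
  · intro l _ hl
    refine sum_eq_zero fun m _ => ?_
    rw [hd i l hl]
    ring
  · intro h
    exact absurd (mem_range.2 (by omega)) h

/-- the coefficients of an invariant bilinear operator are polynomials -/
theorem coeff_poly {k : ℕ} (hk : 1 ≤ k) {G : ℝ[X]} {I : Set ℝ} (B : ℕ → ℕ → ℝ → ℝ)
    (hinv : ∀ u ∈ V k G, ∀ v ∈ V k G, ∃ w ∈ V k G, ∀ t ∈ I, Bt k B t u v = w.eval t) :
    ∃ b : ℕ → ℕ → ℝ[X], ∀ i j, i ≤ k → j ≤ k → ∀ t ∈ I, B i j t = (b i j).eval t := by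
  have hX : ∀ m, m ≤ k → (X ^ m : ℝ[X]) ∈ V k G := by
    intro m hm
    refine ⟨0, ?_⟩
    rw [iterate_derivative_eq_zero (by rw [natDegree_X_pow]; omega), C_0, zero_mul]
  have h1 : ∀ m n, ∃ p : ℝ[X], m ≤ k → n ≤ k → ∀ t ∈ I, Bt k B t (X ^ m) (X ^ n) = p.eval t := by
    intro m n
    by_cases hm : m ≤ k ∧ n ≤ k
    · obtain ⟨w, -, hw⟩ := hinv _ (hX m hm.1) _ (hX n hm.2)
      exact ⟨w, fun _ _ => hw⟩
    · exact ⟨0, fun h1 h2 => absurd ⟨h1, h2⟩ hm⟩
  choose P hP using h1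
  refine ⟨fun i j => C (((i.factorial : ℝ) * (j.factorial : ℝ))⁻¹) *
    ∑ m ∈ range (i + 1), ∑ n ∈ range (j + 1),
      C ((i.choose m : ℝ) * (j.choose n : ℝ)) * (-X) ^ (i - m) * (-X) ^ (j - n) * P m n, ?_⟩
  intro i j hi hj t ht
  have h2 := Bt_diag B t hi hj
  rw [← BtL_apply, sub_pow_smul t i, sub_pow_smul t j] at h2
  simp only [map_sum, LinearMap.sum_apply, map_smul, LinearMap.smul_apply, smul_eq_mul] at h2
  rw [eval_mul, eval_C]
  have hf : ((i.factorial : ℝ) * (j.factorial : ℝ)) ≠ 0 :=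
    mul_ne_zero (Nat.cast_ne_zero.2 (Nat.factorial_ne_zero _))
      (Nat.cast_ne_zero.2 (Nat.factorial_ne_zero _))
  have h3 : (∑ m ∈ range (i + 1), ∑ n ∈ range (j + 1),
      C ((i.choose m : ℝ) * (j.choose n : ℝ)) * (-X) ^ (i - m) * (-X) ^ (j - n) * P m n).eval t =
      B i j t * ((i.factorial : ℝ) * (j.factorial : ℝ)) := by
    rw [← mul_assoc, ← h2, eval_finsetSum]
    simp only [eval_finsetSum, eval_mul, eval_C, eval_pow, eval_neg, eval_X, mul_sum]
    rw [sum_comm]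
    refine sum_congr rfl fun m hm => sum_congr rfl fun n hn => ?_
    rw [mem_range] at hm hn
    have h4 := hP n m (by omega) (by omega) t ht
    rw [← h4, BtL_apply]
    ring
  rw [h3]
  field_simp

theorem Bt_eval {k : ℕ} {I : Set ℝ} {B : ℕ → ℕ → ℝ → ℝ} {b : ℕ → ℕ → ℝ[X]}
    (hb : ∀ i j, i ≤ k → j ≤ k → ∀ t ∈ I, B i j t = (b i j).eval t) {t : ℝ} (ht : t ∈ I)
    (u v : ℝ[X]) : Bt k B t u v = (Bop k b u v).eval t := by
  rw [Bt, Bop, eval_finsetSum]
  refine sum_congr rfl fun i hi => ?_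
  rw [eval_finsetSum]
  refine sum_congr rfl fun j hj => ?_
  rw [mem_range] at hi hj
  rw [eval_mul, eval_mul, hb i j (by omega) (by omega) t ht]

/-- the necessary condition for bilinear operators with function coefficients -/
theorem necessary_Bt {k : ℕ} (hk : 1 ≤ k) {G : ℝ[X]} (hG : G ≠ 0) {I : Set ℝ} (hI : I.Infinite)
    (B : ℕ → ℕ → ℝ → ℝ) (hs : ∀ i j, i ≤ k → j ≤ k → ∀ t ∈ I, B i j t = B j i t)
    (hinv : ∀ u ∈ V k G, ∀ v ∈ V k G, ∃ w ∈ V k G, ∀ t ∈ I, Bt k B t u v = w.eval t)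
    (hne : ∃ i j, i ≤ k ∧ j ≤ k ∧ ∃ t ∈ I, B i j t ≠ 0) :
    ∃ S : ℝ[X], S ≠ 0 ∧ G ∣ derivative G * S ∧ G.natDegree + S.natDegree ≤ k := by
  obtain ⟨g, hg⟩ := exists_g k G
  have hd := natDegree_g hg hG
  obtain ⟨b, hb⟩ := coeff_poly hk B hinv
  have hb' : ∀ i j, i ≤ k → j ≤ k → ∀ t ∈ I,
      B i j t = ((fun i j => if i ≤ k ∧ j ≤ k then b i j else 0) i j).eval t := by
    intro i j hi hj t ht
    simp only [hi, hj, and_self, if_true]
    exact hb i j hi hj t ht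
  have h1 := necessary (b := fun i j => if i ≤ k ∧ j ≤ k then b i j else 0) hk hd ?_ ?_ ?_
  · rwa [hg] at h1
  · intro i j
    by_cases h : i ≤ k ∧ j ≤ k
    · simp only [h, and_self, if_true]
      refine eq_of_infinite_eval_eq _ _ (hI.mono ?_)
      intro t ht
      rw [Set.mem_ofPred_eq, ← hb i j h.1 h.2 t ht, ← hb j i h.2 h.1 t ht]
      exact hs i j h.1 h.2 t ht
    · rw [if_neg h, if_neg (fun h' => h ⟨h'.2, h'.1⟩)]
  · intro u hu v hv
    rw [← V_eq hk hg] at hu hv ⊢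
    obtain ⟨w, hw, hw2⟩ := hinv u hu v hv
    have h2 : Bop k (fun i j => if i ≤ k ∧ j ≤ k then b i j else 0) u v = w := by
      refine eq_of_infinite_eval_eq _ _ (hI.mono ?_)
      intro t ht
      rw [Set.mem_ofPred_eq, ← hw2 t ht, Bt_eval hb' ht]
    rw [h2]
    exact hw
  · obtain ⟨i, j, hi, hj, t, ht, hne⟩ := hne
    refine ⟨i, j, hi, hj, ?_⟩
    intro h0
    apply hne
    rw [hb' i j hi hj t ht]
    simp only at h0 ⊢
    rw [h0, eval_zero]

end

end InvSub2
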