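import Pool.Agent.InvSub2.Tay

/-!
# Exotic invariant subspaces (MP_c40997_an): the construction of the operator
-/

set_option autoImplicit false

namespace InvSub2

open Polynomial Finset

noncomputable section

/-- the `2k`-th derivative -/
def GG (k : ℕ) (g : ℝ[X]) : ℝ[X] := derivative^[2 * k] g

/-- `W_g`: polynomials of degree less than `2k` plus multiples of `g` -/
def Wg (k : ℕ) (g : ℝ[X]) : Submodule ℝ ℝ[X] := degreeLT ℝ (2 * k) ⊔ Submodule.span ℝ {g}

/-- the dual space -/
def Wd (k : ℕ) (G : ℝ[X]) : Submodule ℝ ℝ[X] where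
  carrier := {h | ∃ r ∈ degreeLT ℝ (2 * k), derivative h = G * r}
  add_mem' := by
    rintro h h' ⟨r, hr, e⟩ ⟨r', hr', e'⟩
    exact ⟨r + r', Submodule.add_mem _ hr hr', by rw [derivative_add, e, e', mul_add]⟩
  zero_mem' := ⟨0, Submodule.zero_mem _, by simp⟩
  smul_mem' := by
    rintro c h ⟨r, hr, e⟩
    exact ⟨c • r, Submodule.smul_mem _ c hr, by rw [derivative_smul, e, mul_smul_comm]⟩

theorem mem_Wd {k : ℕ} {G h : ℝ[X]} :
    h ∈ Wd k G ↔ ∃ r ∈ degreeLT ℝ (2 * k), derivative h = G * r := Iff.rfl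

theorem natDegree_GG {k : ℕ} {g : ℝ[X]} (hk : 1 ≤ k) (hg : 2 * k ≤ g.natDegree) :
    (GG k g).natDegree = g.natDegree - 2 * k := by
  refine le_antisymm (natDegree_iterate_derivative g (2 * k)) ?_
  refine le_natDegree_of_ne_zero ?_
  unfold GG
  rw [coeff_iterate_derivative, Nat.sub_add_cancel hg, nsmul_eq_mul]
  refine mul_ne_zero ?_ ?_
  · exact Nat.cast_ne_zero.2 (Nat.descFactorial_pos.2 hg).ne'
  · rw [coeff_natDegree]
    intro h
    rw [leadingCoeff_eq_zero] at h
    rw [h, natDegree_zero] at hg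
    omega

theorem GG_ne {k : ℕ} {g : ℝ[X]} (hk : 1 ≤ k) (hg : 2 * k ≤ g.natDegree) : GG k g ≠ 0 := by
  unfold GG
  intro h
  have h1 : coeff (derivative^[2 * k] g) (g.natDegree - 2 * k) = 0 := by rw [h, coeff_zero]
  rw [coeff_iterate_derivative, Nat.sub_add_cancel hg, nsmul_eq_mul, mul_eq_zero] at h1
  rcases h1 with h1 | h1
  · exact Nat.cast_ne_zero.2 (Nat.descFactorial_pos.2 hg).ne' h1
  · rw [coeff_natDegree, leadingCoeff_eq_zero] at h1
    rw [h1, natDegree_zero] at hg
    omega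

theorem mem_degreeLT' {n : ℕ} {p : ℝ[X]} (h : p.natDegree < n) :
    p ∈ degreeLT ℝ n := by
  rw [mem_degreeLT]
  by_cases h0 : p = 0
  · rw [h0, degree_zero]
    exact WithBot.bot_lt_coe _
  · rw [degree_eq_natDegree h0]
    exact_mod_cast h

theorem natDegree_of_mem {n : ℕ} {p : ℝ[X]} (hn : 1 ≤ n) (h : p ∈ degreeLT ℝ n) :
    p.natDegree < n := by
  rw [mem_degreeLT] at h
  by_cases h0 : p = 0
  · rw [h0, natDegree_zero]
    omega
  · rw [degree_eq_natDegree h0] at h
    exact_mod_cast h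

/-- the element of `W_g` vanishing to order `k` at `x` and `y` -/
def w (k : ℕ) (g : ℝ[X]) (x y : ℝ) : ℝ[X] := g - g %ₘ ((X - C x) ^ k * (X - C y) ^ k)

theorem monic_m (k : ℕ) (x y : ℝ) : ((X - C x : ℝ[X]) ^ k * (X - C y) ^ k).Monic :=
  ((monic_X_sub_C x).pow k).mul ((monic_X_sub_C y).pow k)

theorem degree_m (k : ℕ) (x y : ℝ) :
    ((X - C x : ℝ[X]) ^ k * (X - C y) ^ k).degree = ((2 * k : ℕ) : WithBot ℕ) := by
  rw [degree_mul, degree_pow, degree_pow, degree_X_sub_C, degree_X_sub_C]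
  simp only [nsmul_eq_mul, mul_one]
  rw [← Nat.cast_add, two_mul]

theorem rem_mem (k : ℕ) (g : ℝ[X]) (x y : ℝ) :
    g %ₘ ((X - C x) ^ k * (X - C y) ^ k) ∈ degreeLT ℝ (2 * k) := by
  rw [mem_degreeLT, ← degree_m k x y]
  exact degree_modByMonic_lt g (monic_m k x y)

theorem g_mem (k : ℕ) (g : ℝ[X]) : g ∈ Wg k g :=
  Submodule.mem_sup_right (Submodule.mem_span_singleton_self g)

theorem w_mem (k : ℕ) (g : ℝ[X]) (x y : ℝ) : w k g x y ∈ Wg k g :=
  (Wg k g).sub_mem (g_mem k g) (Submodule.mem_sup_left (rem_mem k g x y))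

theorem w_eq (k : ℕ) (g : ℝ[X]) (x y : ℝ) :
    w k g x y = (X - C x) ^ k * (X - C y) ^ k * (g /ₘ ((X - C x) ^ k * (X - C y) ^ k)) := by
  have h := modByMonic_add_div g ((X - C x) ^ k * (X - C y) ^ k)
  unfold w
  linear_combination (-1 : ℝ[X]) * h

theorem w_symm (k : ℕ) (g : ℝ[X]) (x y : ℝ) : w k g x y = w k g y x := by
  unfold w
  rw [mul_comm]

theorem w_eval (k : ℕ) (g : ℝ[X]) (x y t : ℝ) : (w k g x y).eval t =
    (t - x) ^ k * (t - y) ^ k * (Qp k (g /ₘ (X - C y) ^ k) t).eval x := by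
  rw [w_eq, divByMonic_mul g _ _ ((monic_X_sub_C x).pow k) ((monic_X_sub_C y).pow k), eval_mul,
    eval_mul, eval_pow, eval_pow, eval_sub, eval_sub, eval_X, eval_C, eval_C, divMod]

/-- `w_{x, y}(t)` as a polynomial in `x` -/
def hw (k : ℕ) (g : ℝ[X]) (y t : ℝ) : ℝ[X] :=
  C ((t - y) ^ k) * (C t - X) ^ k * Qp k (g /ₘ (X - C y) ^ k) t

theorem hw_eval (k : ℕ) (g : ℝ[X]) (x y t : ℝ) :
    (hw k g y t).eval x = (w k g x y).eval t := by
  rw [w_eval, hw]
  simp only [eval_mul, eval_C, eval_pow, eval_sub, eval_X]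
  ring

theorem natDegree_hw {k : ℕ} {g : ℝ[X]} (hg : 2 * k ≤ g.natDegree) (y t : ℝ) :
    (hw k g y t).natDegree ≤ g.natDegree - k := by
  have h1 : (g /ₘ (X - C y) ^ k).natDegree = g.natDegree - k := by
    rw [natDegree_divByMonic _ ((monic_X_sub_C y).pow k), natDegree_pow, natDegree_X_sub_C,
      mul_one]
  have h2 := natDegree_Qp k (g /ₘ (X - C y) ^ k) t
  rw [h1] at h2
  have h3 : ((C t - X : ℝ[X]) ^ k).natDegree ≤ k := by
    refine natDegree_pow_le.trans ?_
    have h4 : (C t - X : ℝ[X]).natDegree ≤ 1 := by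
      refine (natDegree_sub_le _ _).trans ?_
      simp
    calc k * (C t - X : ℝ[X]).natDegree ≤ k * 1 := Nat.mul_le_mul_left _ h4
      _ = k := mul_one k
  unfold hw
  refine natDegree_mul_le.trans ?_
  have h5 : (C ((t - y) ^ k) * (C t - X : ℝ[X]) ^ k).natDegree ≤ k :=
    (natDegree_C_mul_le _ _).trans h3
  omega

theorem dvd_hw (k : ℕ) (g : ℝ[X]) (y t : ℝ) : (X - C t) ^ k ∣ hw k g y t := by
  unfold hw
  refine Dvd.dvd.mul_right (Dvd.dvd.mul_left ?_ _) _
  have h : (C t - X : ℝ[X]) = -(X - C t) := by ring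
  rw [h, neg_pow]
  exact Dvd.intro_left _ rfl

/-! ## The kernel -/

section Ker

variable {k : ℕ} {g S : ℝ[X]}

/-- the weight -/
def HH (k : ℕ) (g S : ℝ[X]) : ℝ[X] := GG k g * S

/-- the kernel `K(x, y; t)` -/
def KK (k : ℕ) (g S : ℝ[X]) (x y : ℝ) : ℝ[X] :=
  C ((HH k g S).eval x * (HH k g S).eval y) * w k g x y

theorem KK_symm (x y : ℝ) : KK k g S x y = KK k g S y x := by
  unfold KK
  rw [w_symm, mul_comm ((HH k g S).eval x)]

theorem KK_mem (x y : ℝ) : KK k g S x y ∈ Wg k g := by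
  unfold KK
  rw [← smul_eq_C_mul]
  exact (Wg k g).smul_mem _ (w_mem k g x y)

theorem claimP (hk : 1 ≤ k) (hg : 2 * k ≤ g.natDegree) (hS : GG k g ∣ derivative (GG k g) * S)
    (hdeg : (GG k g).natDegree + S.natDegree ≤ k) (y t : ℝ) :
    ∃ h ∈ Wd k (GG k g), (∀ x, h.eval x = (KK k g S x y).eval t) ∧ (X - C t) ^ k ∣ h := by
  obtain ⟨e, he⟩ := hS
  refine ⟨C ((HH k g S).eval y) * HH k g S * hw k g y t, ⟨C ((HH k g S).eval y) *
    ((e + derivative S) * hw k g y t + S * derivative (hw k g y t)), ?_, ?_⟩, ?_, ?_⟩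
  · set r := C ((HH k g S).eval y) *
      ((e + derivative S) * hw k g y t + S * derivative (hw k g y t)) with hr
    refine mem_degreeLT' ?_
    by_cases h0 : r = 0
    · rw [h0, natDegree_zero]
      omega
    have hG : GG k g ≠ 0 := GG_ne hk hg
    have h1 : GG k g * r = derivative (C ((HH k g S).eval y) * HH k g S * hw k g y t) := by
      rw [hr, derivative_mul, derivative_C_mul, HH, derivative_mul, he]
      ring
    have h2 : (GG k g * r).natDegree = (GG k g).natDegree + r.natDegree :=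
      natDegree_mul hG h0
    have h3 : (C ((HH k g S).eval y) * HH k g S * hw k g y t).natDegree ≤
        (GG k g).natDegree + S.natDegree + (g.natDegree - k) := by
      refine natDegree_mul_le.trans (add_le_add ?_ (natDegree_hw hg y t))
      refine (natDegree_C_mul_le _ _).trans ?_
      exact natDegree_mul_le
    have h4 := natDegree_derivative_le (C ((HH k g S).eval y) * HH k g S * hw k g y t)
    rw [← h1, h2] at h4
    have h5 := natDegree_GG hk hg
    omega
  · rw [derivative_mul, derivative_C_mul, HH, derivative_mul, he]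
    ring
  · intro x
    rw [eval_mul, eval_mul, hw_eval, KK, eval_mul, eval_C, eval_C]
    ring
  · exact Dvd.dvd.mul_left (dvd_hw k g y t) _

end Ker

/-! ## The functionals -/

/-- the functional of `h`, `h' = G r`, at `t` -/
def Lam (k : ℕ) (t : ℝ) (e r : ℝ[X]) : ℝ :=
  ∑ i ∈ range (k + 1), (-1) ^ i * (derivative^[i] e).eval t *
    (derivative^[2 * k - 1 - i] r).eval t

theorem lam_aux {k : ℕ} {g : ℝ[X]} (hk : 1 ≤ k) {h r : ℝ[X]} (hr : r ∈ degreeLT ℝ (2 * k))
    (hh : derivative h = GG k g * r) (x t : ℝ) :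
    ∑ i ∈ range (2 * k), (-1) ^ i * (derivative^[i] (w k g x x)).eval t *
      (derivative^[2 * k - 1 - i] r).eval t = h.eval x - h.eval t := by
  set e := w k g x x with he
  set P : ℝ[X] := ∑ i ∈ range (2 * k), (-1) ^ i * derivative^[i] e *
    derivative^[2 * k - 1 - i] r with hP
  let f : ℕ → ℝ[X] := fun j => -(-1 : ℝ[X]) ^ j * derivative^[j] e * derivative^[2 * k - j] r
  -- the derivatives of `e`
  have h1 : derivative^[2 * k] e = GG k g := by
    rw [he, w, iterate_derivative_sub]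
    rw [iterate_derivative_eq_zero (natDegree_of_mem (by omega) (rem_mem k g x x)), sub_zero]
    rfl
  have h2 : ∀ i, i < 2 * k → (derivative^[i] e).eval x = 0 := by
    intro i hi
    have h3 : (X - C x) ^ (2 * k) ∣ e := by
      rw [he, w_eq, two_mul, pow_add]
      exact Dvd.intro _ rfl
    have h4 := pow_sub_dvd_iterate_derivative_of_pow_dvd i h3
    have h5 : (X - C x) ∣ derivative^[i] e :=
      (dvd_pow_self _ (by omega : 2 * k - i ≠ 0)).trans h4
    rw [← IsRoot.def]
    exact dvd_iff_isRoot.1 h5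
  have h6 : derivative^[2 * k] r = 0 := iterate_derivative_eq_zero (natDegree_of_mem (by omega) hr)
  -- telescoping
  have h7 : derivative P = -(GG k g * r) := by
    have h8 : ∀ i ∈ range (2 * k), derivative ((-1) ^ i * derivative^[i] e *
        derivative^[2 * k - 1 - i] r) = f (i + 1) - f i := by
      intro i hi
      rw [mem_range] at hi
      have h9 : derivative ((-1 : ℝ[X]) ^ i) = 0 := by
        have : ((-1 : ℝ[X]) ^ i) = C ((-1) ^ i) := by simp
        rw [this, derivative_C]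
      have ha : derivative^[i + 1] e = derivative (derivative^[i] e) :=
        Function.iterate_succ_apply' derivative i e
      have hb : derivative^[2 * k - i] r = derivative (derivative^[2 * k - 1 - i] r) := by
        rw [show 2 * k - i = (2 * k - 1 - i) + 1 by omega]
        exact Function.iterate_succ_apply' derivative (2 * k - 1 - i) r
      simp only [f]
      rw [derivative_mul, derivative_mul, h9, ha, hb,
        show 2 * k - (i + 1) = 2 * k - 1 - i by omega, pow_succ]
      ring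
    rw [hP, derivative_sum, sum_congr rfl h8, sum_range_sub f]
    simp only [f, pow_zero, Function.iterate_zero, id, Nat.sub_zero, Nat.sub_self]
    rw [h6, h1, pow_mul]
    simp
  have h10 : derivative (P + h) = 0 := by
    rw [derivative_add, h7, hh]
    ring
  have h11 : (P + h).natDegree = 0 := derivative_eq_zero.1 h10
  have h12 : (P + h).eval t = (P + h).eval x := by
    rw [eq_C_of_natDegree_eq_zero h11, eval_C, eval_C]
  have h13 : P.eval x = 0 := by
    rw [hP, eval_finsetSum]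
    refine sum_eq_zero fun i hi => ?_
    rw [eval_mul, eval_mul, h2 i (mem_range.1 hi)]
    ring
  have h14 : P.eval t = ∑ i ∈ range (2 * k), (-1) ^ i * (derivative^[i] e).eval t *
      (derivative^[2 * k - 1 - i] r).eval t := by
    rw [hP, eval_finsetSum]
    refine sum_congr rfl fun i _ => ?_
    simp
  rw [← h14]
  rw [eval_add, eval_add, h13] at h12
  linarith

theorem lam_eq {k : ℕ} {g : ℝ[X]} (hk : 1 ≤ k) {h r : ℝ[X]} (hr : r ∈ degreeLT ℝ (2 * k))
    (hh : derivative h = GG k g * r) {t : ℝ} (ht : (GG k g).eval t ≠ 0)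
    (hd : (X - C t) ^ k ∣ h) (x : ℝ) : Lam k t (w k g x x) r = h.eval x := by
  have h1 := lam_aux hk hr hh x t
  have h2 : h.eval t = 0 := by
    rw [← IsRoot.def]
    exact dvd_iff_isRoot.1 ((dvd_pow_self _ (by omega : k ≠ 0)).trans hd)
  rw [h2, sub_zero] at h1
  rw [← h1, Lam]
  refine sum_subset ?_ ?_
  · intro i hi
    rw [mem_range] at hi ⊢
    omega
  · intro i hi hi2
    rw [mem_range] at hi hi2
    have h3 : (X - C t) ^ (k - 1) ∣ derivative h := pow_sub_one_dvd_derivative_of_pow_dvd hd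
    rw [hh] at h3
    have h4 : IsCoprime ((X - C t) ^ (k - 1)) (GG k g) := by
      refine IsCoprime.pow_left ?_
      refine (irreducible_X_sub_C t).coprime_iff_not_dvd.2 ?_
      intro h
      exact ht (dvd_iff_isRoot.1 h)
    have h5 : (X - C t) ^ (k - 1) ∣ r := h4.dvd_of_dvd_mul_left h3
    have h6 := pow_sub_dvd_iterate_derivative_of_pow_dvd (2 * k - 1 - i) h5
    have h7 : (X - C t) ∣ derivative^[2 * k - 1 - i] r :=
      (dvd_pow_self _ (by omega : k - 1 - (2 * k - 1 - i) ≠ 0)).trans h6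
    have h8 : (derivative^[2 * k - 1 - i] r).eval t = 0 := by
      rw [← IsRoot.def]
      exact dvd_iff_isRoot.1 h7
    rw [h8, mul_zero]

end

end InvSub2
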