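import Pool.Agent.InvSub2.Ops

/-!
# Exotic invariant subspaces (MP_c40997_an): the elements `w_{x, x}` span `W_g`
-/

set_option autoImplicit false

namespace InvSub2

open Polynomial Finset

noncomputable section

/-- `l ((X - x) ^ j)` as a polynomial in `x` -/
def pj (l : ℝ[X] →ₗ[ℝ] ℝ) (j : ℕ) : ℝ[X] :=
  ∑ m ∈ range (j + 1), C (l (X ^ m) * (j.choose m)) * (-X) ^ (j - m)

theorem pj_eval (l : ℝ[X] →ₗ[ℝ] ℝ) (j : ℕ) (x : ℝ) : (pj l j).eval x = l ((X - C x) ^ j) := by
  rw [sub_eq_add_neg, add_pow, map_sum, pj, eval_finsetSum]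
  refine sum_congr rfl fun m _ => ?_
  have h : (X ^ m * (-C x) ^ (j - m) * ((j.choose m : ℕ) : ℝ[X]) : ℝ[X]) =
      ((-x) ^ (j - m) * (j.choose m : ℝ)) • X ^ m := by
    rw [smul_eq_C_mul, C_mul, C_pow, C_neg, ← C_eq_natCast (j.choose m)]
    simp only [map_natCast]
    ring
  rw [h, map_smul, smul_eq_mul]
  simp only [eval_mul, eval_C, eval_pow, eval_neg, eval_X]
  ring

theorem pj_der (l : ℝ[X] →ₗ[ℝ] ℝ) (j : ℕ) :
    derivative (pj l (j + 1)) = -((j + 1 : ℕ) : ℝ[X]) * pj l j := by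
  rw [pj, sum_range_succ, derivative_add, derivative_sum, Nat.sub_self, pow_zero, mul_one,
    derivative_C, add_zero, pj, mul_sum]
  refine sum_congr rfl fun m hm => ?_
  rw [mem_range] at hm
  have h1 : ((j.choose m : ℕ) : ℝ) * ((j + 1 : ℕ) : ℝ) =
      (((j + 1).choose m : ℕ) : ℝ) * ((j + 1 - m : ℕ) : ℝ) := by
    exact_mod_cast Nat.choose_mul_succ_eq j m
  have h2 : derivative ((-X : ℝ[X]) ^ (j + 1 - m)) =
      -(C ((j + 1 - m : ℕ) : ℝ)) * (-X) ^ (j - m) := by
    rw [derivative_pow, derivative_neg, derivative_X, show j + 1 - m - 1 = j - m by omega]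
    ring
  rw [derivative_C_mul, h2]
  have h3 : C (l (X ^ m) * (((j + 1).choose m : ℕ) : ℝ)) * C ((j + 1 - m : ℕ) : ℝ) =
      C (((j + 1 : ℕ) : ℝ)) * C (l (X ^ m) * ((j.choose m : ℕ) : ℝ)) := by
    rw [← C_mul, ← C_mul]
    congr 1
    linear_combination (-(l (X ^ m))) * h1
  have h4 : (C (((j + 1 : ℕ) : ℝ)) : ℝ[X]) = ((j + 1 : ℕ) : ℝ[X]) := map_natCast C (j + 1)
  rw [h4] at h3
  linear_combination (-((-X : ℝ[X]) ^ (j - m))) * h3

theorem der_hasse (g : ℝ[X]) (j : ℕ) :
    derivative (hasseDeriv j g) = ((j + 1 : ℕ) : ℝ[X]) * hasseDeriv (j + 1) g := by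
  have h := congrArg (fun f => f g) (hasseDeriv_comp (R := ℝ) 1 j)
  simp only [LinearMap.comp_apply, hasseDeriv_one', LinearMap.smul_apply] at h
  rw [h, nsmul_eq_mul, Nat.choose_one_right, Nat.add_comm 1 j]

theorem hasse_ne {k : ℕ} {g : ℝ[X]} (hk : 1 ≤ k) (hg : 2 * k ≤ g.natDegree) :
    hasseDeriv (2 * k) g ≠ 0 := by
  intro h
  have h1 : (hasseDeriv (2 * k) g).coeff (g.natDegree - 2 * k) = 0 := by rw [h, coeff_zero]
  rw [hasseDeriv_coeff, Nat.sub_add_cancel hg, mul_eq_zero] at h1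
  rcases h1 with h1 | h1
  · exact Nat.cast_ne_zero.2 (Nat.choose_pos hg).ne' h1
  · rw [coeff_natDegree, leadingCoeff_eq_zero] at h1
    rw [h1, natDegree_zero] at hg
    omega

theorem w_taylor (k : ℕ) (g : ℝ[X]) (hg : 2 * k ≤ g.natDegree) (x : ℝ) :
    w k g x x = g - ∑ j ∈ range (2 * k), C ((hasseDeriv j g).eval x) * (X - C x) ^ j := by
  have hm := monic_m k x x
  have hT := taylor_sum g x g.natDegree le_rfl
  have h1 := (div_modByMonic_unique (f := g) (g := (X - C x) ^ k * (X - C x) ^ k)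
    (∑ j ∈ range (g.natDegree + 1 - 2 * k),
      C ((hasseDeriv (2 * k + j) g).eval x) * (X - C x) ^ j)
    (∑ j ∈ range (2 * k), C ((hasseDeriv j g).eval x) * (X - C x) ^ j) hm ⟨by
      rw [mul_sum]
      have h2 : ∀ j ∈ range (g.natDegree + 1 - 2 * k), (X - C x) ^ k * (X - C x) ^ k *
          (C ((hasseDeriv (2 * k + j) g).eval x) * (X - C x) ^ j) =
          C ((hasseDeriv (2 * k + j) g).eval x) * (X - C x) ^ (2 * k + j) := by
        intro j _
        rw [pow_add, two_mul, pow_add]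
        ring
      rw [sum_congr rfl h2]
      have h3 := Finset.sum_range_add (f := fun j =>
        C ((hasseDeriv j g).eval x) * (X - C x) ^ j) (2 * k) (g.natDegree + 1 - 2 * k)
      rw [← h3, show 2 * k + (g.natDegree + 1 - 2 * k) = g.natDegree + 1 by omega]
      exact hT, by
      rw [degree_m]
      rw [degree_lt_iff_coeff_zero]
      intro m hm2
      rw [finsetSum_coeff]
      refine sum_eq_zero fun j hj => ?_
      rw [mem_range] at hj
      rw [coeff_C_mul, coeff_eq_zero_of_natDegree_lt, mul_zero]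
      rw [natDegree_pow, natDegree_X_sub_C]
      omega⟩).2
  rw [w, h1]

/-- a functional vanishing on all `w_{x, x}` vanishes on `W_g` -/
theorem dual_zero {k : ℕ} {g : ℝ[X]} (hk : 1 ≤ k) (hg : 2 * k ≤ g.natDegree)
    (l : ℝ[X] →ₗ[ℝ] ℝ) (hl : ∀ x, l (w k g x x) = 0) : ∀ u ∈ Wg k g, l u = 0 := by
  -- the polynomial identity
  have h1 : ∑ j ∈ range (2 * k), hasseDeriv j g * pj l j = C (l g) := by
    refine Polynomial.funext fun x => ?_
    have h2 := hl x
    rw [w_taylor k g hg x, map_sub, map_sum, sub_eq_zero] at h2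
    rw [eval_C, h2, eval_finsetSum]
    refine sum_congr rfl fun j _ => ?_
    rw [eval_mul, pj_eval, ← smul_eq_C_mul, map_smul, smul_eq_mul]
  let f : ℕ → ℝ[X] := fun j => (j : ℝ[X]) * hasseDeriv j g * pj l (j - 1)
  have h3 : ∀ j, derivative (hasseDeriv j g * pj l j) = f (j + 1) - f j := by
    intro j
    rw [derivative_mul, der_hasse]
    simp only [f]
    rcases Nat.eq_zero_or_pos j with h0 | h0
    · subst h0
      have h4 : derivative (pj l 0) = 0 := by
        rw [pj]
        simp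
      rw [h4]
      simp
    · obtain ⟨i, rfl⟩ : ∃ i, j = i + 1 := ⟨j - 1, by omega⟩
      rw [pj_der, Nat.add_sub_cancel, Nat.add_sub_cancel]
      ring
  have h5 : (2 * k : ℕ) * hasseDeriv (2 * k) g * pj l (2 * k - 1) = 0 := by
    have h6 := congrArg derivative h1
    rw [derivative_sum, derivative_C, sum_congr rfl fun j _ => h3 j, sum_range_sub f] at h6
    simp only [f, Nat.cast_zero, zero_mul, sub_zero] at h6
    exact h6
  have h7 : pj l (2 * k - 1) = 0 := by
    rcases mul_eq_zero.1 h5 with h8 | h8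
    · rcases mul_eq_zero.1 h8 with h9 | h9
      · exfalso
        rw [Nat.cast_eq_zero] at h9
        omega
      · exact absurd h9 (hasse_ne hk hg)
    · exact h8
  -- all `pj` vanish
  have h8 : ∀ i, i ≤ 2 * k - 1 → pj l (2 * k - 1 - i) = 0 := by
    intro i
    induction i with
    | zero => intro _; exact h7
    | succ i ih =>
      intro hi
      have h9 := ih (by omega)
      have h10 := pj_der l (2 * k - 1 - (i + 1))
      rw [show 2 * k - 1 - (i + 1) + 1 = 2 * k - 1 - i by omega, h9, derivative_zero] at h10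
      rcases mul_eq_zero.1 h10.symm with h11 | h11
      · exfalso
        rw [neg_eq_zero, Nat.cast_eq_zero] at h11
        omega
      · exact h11
  have h9 : ∀ j, j < 2 * k → pj l j = 0 := by
    intro j hj
    have := h8 (2 * k - 1 - j) (by omega)
    rwa [show 2 * k - 1 - (2 * k - 1 - j) = j by omega] at this
  have h10 : l g = 0 := by
    have h11 : ∑ j ∈ range (2 * k), hasseDeriv j g * pj l j = 0 :=
      sum_eq_zero fun j hj => by rw [h9 j (mem_range.1 hj), mul_zero]
    rw [h11] at h1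
    exact (C_eq_zero.1 h1.symm)
  have h12 : ∀ u ∈ degreeLT ℝ (2 * k), l u = 0 := by
    intro u hu
    rw [degreeLT_eq_span_X_pow] at hu
    refine Submodule.span_induction ?_ (map_zero l) ?_ ?_ hu
    · intro v hv
      rw [coe_image, Set.mem_image] at hv
      obtain ⟨j, hj, rfl⟩ := hv
      have h13 := pj_eval l j 0
      rw [h9 j (mem_range.1 (mem_coe.1 hj)), eval_zero, C_0, sub_zero] at h13
      exact h13.symm
    · intro a b _ _ ha hb
      rw [map_add, ha, hb, add_zero]
    · intro c a _ ha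
      rw [map_smul, ha, smul_zero]
  intro u hu
  obtain ⟨a, ha, b, hb, rfl⟩ := Submodule.mem_sup.1 hu
  obtain ⟨c, rfl⟩ := Submodule.mem_span_singleton.1 hb
  rw [map_add, h12 a ha, map_smul, h10, smul_zero, add_zero]

theorem Wg_le_span {k : ℕ} {g : ℝ[X]} (hk : 1 ≤ k) (hg : 2 * k ≤ g.natDegree) :
    Wg k g ≤ Submodule.span ℝ (Set.range fun x => w k g x x) := by
  intro u hu
  by_contra hcon
  obtain ⟨l, hl1, hl2⟩ := Submodule.exists_le_ker_of_notMem hcon
  exact hl1 (dual_zero hk hg l (fun x =>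
    LinearMap.mem_ker.1 (hl2 (Submodule.subset_span ⟨x, rfl⟩))) u hu)

end

end InvSub2
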