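import Mathlib

/-!
# Exotic invariant subspaces (MP_c40997_an): Taylor expansions, nodes
-/

set_option autoImplicit false

namespace InvSub2

open Polynomial Finset

noncomputable section

/-! ## Taylor expansion -/

/-- Taylor expansion at `x` as a finite sum -/
theorem taylor_sum (p : ℝ[X]) (x : ℝ) (n : ℕ) (hn : p.natDegree ≤ n) :
    ∑ j ∈ range (n + 1), C ((hasseDeriv j p).eval x) * (X - C x) ^ j = p := by
  have h := sum_taylor_eq p x
  rw [Polynomial.sum_over_range' (taylor x p) (fun i => by simp) (n + 1)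
    (by rw [natDegree_taylor]; omega)] at h
  simpa only [taylor_coeff] using h

/-- the quotient of `p` by `(X - x) ^ k`, as a polynomial in the new variable `x` evaluated
at `t` -/
def Qp (k : ℕ) (p : ℝ[X]) (t : ℝ) : ℝ[X] :=
  ∑ j ∈ range (p.natDegree + 1 - k), hasseDeriv (j + k) p * (C t - X) ^ j

theorem natDegree_Qp (k : ℕ) (p : ℝ[X]) (t : ℝ) : (Qp k p t).natDegree ≤ p.natDegree - k := by
  unfold Qp
  refine natDegree_sum_le_of_forall_le _ _ fun j hj => ?_
  rw [mem_range] at hj
  have h1 := natDegree_hasseDeriv_le p (j + k)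
  have h2 : ((C t - X : ℝ[X]) ^ j).natDegree ≤ j := by
    refine (natDegree_pow_le).trans ?_
    have h3 : (C t - X : ℝ[X]).natDegree ≤ 1 := by
      refine (natDegree_sub_le _ _).trans ?_
      simp
    calc j * (C t - X : ℝ[X]).natDegree ≤ j * 1 := Nat.mul_le_mul_left _ h3
      _ = j := mul_one j
  refine (natDegree_mul_le).trans ?_
  omega

theorem divMod (k : ℕ) (p : ℝ[X]) (x : ℝ) :
    (∀ t, (p /ₘ (X - C x) ^ k).eval t = (Qp k p t).eval x) := by
  intro t
  have hm : ((X - C x : ℝ[X]) ^ k).Monic := (monic_X_sub_C x).pow k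
  have hT := taylor_sum p x (p.natDegree + k) (by omega)
  have hd : ((X - C x : ℝ[X]) ^ k).degree = k := by
    rw [degree_pow, degree_X_sub_C]
    simp
  have h1 := (div_modByMonic_unique (f := p) (g := (X - C x) ^ k)
    (∑ j ∈ range (p.natDegree + 1), C ((hasseDeriv (j + k) p).eval x) * (X - C x) ^ j)
    (∑ j ∈ range k, C ((hasseDeriv j p).eval x) * (X - C x) ^ j) hm ⟨by
      rw [mul_sum]
      have h2 : ∀ j ∈ range (p.natDegree + 1), (X - C x) ^ k *
          (C ((hasseDeriv (j + k) p).eval x) * (X - C x) ^ j) =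
          C ((hasseDeriv (k + j) p).eval x) * (X - C x) ^ (k + j) := by
        intro j _
        rw [pow_add, Nat.add_comm j k]
        ring
      rw [sum_congr rfl h2]
      have h3 := Finset.sum_range_add (f := fun j =>
        C ((hasseDeriv j p).eval x) * (X - C x) ^ j) k (p.natDegree + 1)
      rw [← h3, show k + (p.natDegree + 1) = p.natDegree + k + 1 by ring]
      exact hT, by
      rw [hd]
      rw [degree_lt_iff_coeff_zero]
      intro m hm2
      rw [finsetSum_coeff]
      refine sum_eq_zero fun j hj => ?_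
      rw [mem_range] at hj
      rw [coeff_C_mul, coeff_eq_zero_of_natDegree_lt, mul_zero]
      rw [natDegree_pow, natDegree_X_sub_C]
      omega⟩).1
  rw [h1, eval_finsetSum, Qp, eval_finsetSum]
  have h4 : ∀ j, eval t (C ((hasseDeriv (j + k) p).eval x) * (X - C x) ^ j) =
      eval x (hasseDeriv (j + k) p * (C t - X) ^ j) := by
    intro j
    simp
  simp only [h4]
  symm
  refine sum_subset ?_ ?_
  · intro j hj
    rw [mem_range] at hj ⊢
    omega
  · intro j _ hj
    rw [mem_range] at hj
    rw [hasseDeriv_eq_zero_of_lt_natDegree p (j + k) (by omega)]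
    simp

theorem divByMonic_mul (p a b : ℝ[X]) (ha : a.Monic) (hb : b.Monic) :
    p /ₘ (a * b) = p /ₘ b /ₘ a := by
  have e1 := modByMonic_add_div p b
  have e2 := modByMonic_add_div (p /ₘ b) a
  refine (div_modByMonic_unique (f := p) (g := a * b) (p /ₘ b /ₘ a)
    (p %ₘ b + b * (p /ₘ b %ₘ a)) (ha.mul hb) ⟨?_, ?_⟩).1
  · calc p %ₘ b + b * (p /ₘ b %ₘ a) + a * b * (p /ₘ b /ₘ a)
        = p %ₘ b + b * (p /ₘ b %ₘ a + a * (p /ₘ b /ₘ a)) := by ring
      _ = p := by rw [e2, e1]
  · rw [show (a * b).degree = a.degree + b.degree from degree_mul]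
    have hb0 : b ≠ 0 := hb.ne_zero
    have ha0 : a ≠ 0 := ha.ne_zero
    have h1 : (p %ₘ b).degree < b.degree := degree_modByMonic_lt p hb
    have h2 : (p /ₘ b %ₘ a).degree < a.degree := degree_modByMonic_lt _ ha
    refine lt_of_le_of_lt (degree_add_le _ _) (max_lt ?_ ?_)
    · refine lt_of_lt_of_le h1 ?_
      rw [degree_eq_natDegree hb0, degree_eq_natDegree ha0, ← Nat.cast_add]
      exact Nat.cast_le.2 (by omega)
    · rw [degree_mul, add_comm a.degree]
      exact WithBot.add_lt_add_left (by rwa [Ne, degree_eq_bot]) h2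

/-! ## Nodes -/

/-- a finite dimensional space of polynomials has nodes -/
theorem exists_nodes (n : ℕ) : ∀ D : Submodule ℝ ℝ[X], FiniteDimensional ℝ D →
    Module.finrank ℝ D ≤ n → ∃ (ι : Type) (_ : Fintype ι) (x : ι → ℝ) (d : ι → ℝ[X]),
      (∀ a, d a ∈ D) ∧ ∀ f ∈ D, f = ∑ a, C (f.eval (x a)) * d a := by
  induction n with
  | zero =>
    intro D _ hD
    refine ⟨Empty, inferInstance, fun a => a.elim, fun a => a.elim, fun a => a.elim, ?_⟩
    intro f hf
    have h0 : D = ⊥ := Submodule.finrank_eq_zero.1 (Nat.le_zero.1 hD)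
    rw [h0, Submodule.mem_bot] at hf
    rw [hf]
    simp
  | succ n ih =>
    intro D _ hD
    by_cases hbot : D = ⊥
    · refine ⟨Empty, inferInstance, fun a => a.elim, fun a => a.elim, fun a => a.elim, ?_⟩
      intro f hf
      rw [hbot, Submodule.mem_bot] at hf
      rw [hf]
      simp
    obtain ⟨f0, hf0, hne⟩ := Submodule.exists_mem_ne_zero_of_ne_bot hbot
    obtain ⟨x0, hx0⟩ : ∃ x0 : ℝ, f0.eval x0 ≠ 0 := by
      by_contra hcon
      push Not at hcon
      exact hne (Polynomial.funext fun r => by rw [hcon r, eval_zero])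
    let D0 : Submodule ℝ ℝ[X] := D ⊓ LinearMap.ker (Polynomial.leval x0)
    have hfd : FiniteDimensional ℝ D0 := Submodule.finiteDimensional_of_le inf_le_left
    have hlt : Module.finrank ℝ D0 < Module.finrank ℝ D := by
      refine Submodule.finrank_lt_finrank_of_lt (lt_of_le_of_ne inf_le_left ?_)
      intro h
      have h1 : f0 ∈ D0 := by rw [h]; exact hf0
      exact hx0 h1.2
    obtain ⟨ι, _, x, d, hd, hrep⟩ := ih D0 hfd (by omega)
    refine ⟨Option ι, inferInstance, fun a => a.elim x0 x, fun a => a.elim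
      (C (f0.eval x0)⁻¹ * f0 - ∑ b, C ((f0.eval x0)⁻¹ * f0.eval (x b)) * d b) d, ?_, ?_⟩
    · rintro (_ | a)
      · refine D.sub_mem ?_ (D.sum_mem fun b _ => ?_)
        · rw [← smul_eq_C_mul]
          exact D.smul_mem _ hf0
        · rw [← smul_eq_C_mul]
          exact D.smul_mem _ (hd b).1
      · exact (hd a).1
    · intro f hf
      have h1 : f - C (f.eval x0 * (f0.eval x0)⁻¹) * f0 ∈ D0 := by
        refine ⟨D.sub_mem hf (by rw [← smul_eq_C_mul]; exact D.smul_mem _ hf0), ?_⟩
        change (f - C (f.eval x0 * (f0.eval x0)⁻¹) * f0).eval x0 = 0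
        rw [eval_sub, eval_mul, eval_C]
        field_simp
        ring
      have h2 := hrep _ h1
      rw [Fintype.sum_option]
      simp only [Option.elim]
      have h3 : ∀ a, C ((f - C (f.eval x0 * (f0.eval x0)⁻¹) * f0).eval (x a)) * d a =
          C (f.eval (x a)) * d a -
            C (f.eval x0) * (C ((f0.eval x0)⁻¹ * f0.eval (x a)) * d a) := by
        intro a
        rw [eval_sub, eval_mul, eval_C, C_sub, C_mul, C_mul, C_mul]
        ring
      rw [sum_congr rfl fun a _ => h3 a, sum_sub_distrib, ← mul_sum] at h2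
      rw [mul_sub]
      have h4 : C (f.eval x0) * (C (f0.eval x0)⁻¹ * f0) = C (f.eval x0 * (f0.eval x0)⁻¹) * f0 := by
        rw [C_mul]
        ring
      rw [h4]
      linear_combination h2

end

end InvSub2
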